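import Mathlib

set_option autoImplicit false

/-! # Points without predecessor: second moments -/

open Filter Topology Set MeasureTheory
open scoped Real

namespace Pool.Agent.MP_67227b_nt.Lg

variable {J : Type*}

lemma inter_vol (a b w : ℝ) : volume.real (Icc a (a + w) ∩ Icc b (b + w)) =
    max (w - |a - b|) 0 := by
  rw [Icc_inter_Icc, Real.volume_real_Icc]
  congr 1
  rcases le_total a b with h | h
  · rw [max_eq_right h, min_eq_left (by linarith), abs_of_nonpos (by linarith)]
    ring
  · rw [max_eq_left h, min_eq_right (by linarith), abs_of_nonneg (by linarith)]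
    ring

/-- Let `B ⊆ [0, X]` be a set such that no `[y - w, y]`, `y ∈ B`, contains a point `x j`. -/
theorem empty_meas (P : Finset J) (x : J → ℝ) {w c X : ℝ} (hw : 0 < w) (hc : 0 ≤ c)
    (hX : 0 ≤ X) (hx : ∀ j ∈ P, 0 ≤ x j ∧ x j ≤ X) {B : Set ℝ} (hB : B ⊆ Icc 0 X)
    (hBP : ∀ y ∈ B, ∀ j ∈ P, y ∉ Icc (x j) (x j + w)) :
    c ^ 2 * volume.real B ≤ (∑ i ∈ P, ∑ j ∈ P, max (w - |x i - x j|) 0) - 2 * c * (w * P.card) +
      c ^ 2 * (X + w) := by
  classical
  set S : Set ℝ := Icc 0 (X + w) with hS
  set I : J → ℝ → ℝ := fun j => (Icc (x j) (x j + w)).indicator 1 with hI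
  set f : ℝ → ℝ := fun y => ∑ j ∈ P, I j y with hf
  set g : ℝ → ℝ := fun y => (∑ i ∈ P, ∑ j ∈ P, I i y * I j y) - 2 * c * f y +
    c ^ 2 * S.indicator 1 y with hg
  have hIi : ∀ j, Integrable (I j) := fun j =>
    (integrable_indicator_iff measurableSet_Icc).2
      (integrableOn_const (by rw [Real.volume_Icc]; exact ENNReal.ofReal_ne_top))
  have hSi : Integrable (S.indicator (1 : ℝ → ℝ)) :=
    (integrable_indicator_iff measurableSet_Icc).2
      (integrableOn_const (by rw [Real.volume_Icc]; exact ENNReal.ofReal_ne_top))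
  have hIJ : ∀ i j, (fun y => I i y * I j y) =
      (Icc (x i) (x i + w) ∩ Icc (x j) (x j + w)).indicator (1 : ℝ → ℝ) := by
    intro i j
    funext y
    rw [Set.inter_indicator_one]
    rfl
  have hIJi : ∀ i j, Integrable (fun y => I i y * I j y) := by
    intro i j
    rw [hIJ]
    refine (integrable_indicator_iff (measurableSet_Icc.inter measurableSet_Icc)).2
      (integrableOn_const ?_)
    exact measure_ne_top_of_subset inter_subset_left
      (by rw [Real.volume_Icc]; exact ENNReal.ofReal_ne_top)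
  have hfi : Integrable f := integrable_finsetSum _ fun j _ => hIi j
  have hffi : Integrable (fun y => ∑ i ∈ P, ∑ j ∈ P, I i y * I j y) :=
    integrable_finsetSum _ fun i _ => integrable_finsetSum _ fun j _ => hIJi i j
  have hgi : Integrable g := (hffi.sub (hfi.const_mul _)).add (hSi.const_mul _)
  -- the integral
  have h1 : ∫ y, g y = (∑ i ∈ P, ∑ j ∈ P, max (w - |x i - x j|) 0) - 2 * c * (w * P.card) +
      c ^ 2 * (X + w) := by
    have e1 : ∫ y, g y = (∫ y, ((∑ i ∈ P, ∑ j ∈ P, I i y * I j y) - 2 * c * f y)) +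
        ∫ y, c ^ 2 * S.indicator (1 : ℝ → ℝ) y :=
      integral_add (hffi.sub (hfi.const_mul _)) (hSi.const_mul _)
    have e2 : (∫ y, ((∑ i ∈ P, ∑ j ∈ P, I i y * I j y) - 2 * c * f y)) =
        (∫ y, ∑ i ∈ P, ∑ j ∈ P, I i y * I j y) - ∫ y, 2 * c * f y :=
      integral_sub hffi (hfi.const_mul _)
    rw [e1, e2, integral_const_mul, integral_const_mul]
    congr 1
    · congr 1
      · rw [integral_finsetSum _ fun i _ => integrable_finsetSum _ fun j _ => hIJi i j]
        refine Finset.sum_congr rfl fun i _ => ?_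
        rw [integral_finsetSum _ fun j _ => hIJi i j]
        refine Finset.sum_congr rfl fun j _ => ?_
        rw [hIJ, integral_indicator_one (measurableSet_Icc.inter measurableSet_Icc), inter_vol]
      · congr 1
        rw [hf, integral_finsetSum _ fun j _ => hIi j]
        have : ∀ j ∈ P, ∫ y, I j y = w := by
          intro j _
          rw [hI]
          show ∫ y, (Icc (x j) (x j + w)).indicator 1 y = w
          rw [integral_indicator_one measurableSet_Icc, Real.volume_real_Icc_of_le (by linarith)]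
          ring
        rw [Finset.sum_congr rfl this, Finset.sum_const, nsmul_eq_mul]
        ring
    · congr 1
      rw [integral_indicator_one measurableSet_Icc, Real.volume_real_Icc_of_le (by linarith)]
      ring
  -- `g` is a square
  have hfS : ∀ y, f y * S.indicator (1 : ℝ → ℝ) y = f y := by
    intro y
    by_cases hy : y ∈ S
    · rw [indicator_of_mem hy]; simp
    · have : f y = 0 := by
        rw [hf]
        refine Finset.sum_eq_zero fun j hj => ?_
        rw [hI]
        show (Icc (x j) (x j + w)).indicator 1 y = 0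
        refine indicator_of_notMem (fun hyj => hy ?_) _
        obtain ⟨h2, h3⟩ := hx j hj
        exact ⟨by linarith [hyj.1], by linarith [hyj.2]⟩
      rw [this, zero_mul]
  have hg2 : ∀ y, g y = (f y - c * S.indicator (1 : ℝ → ℝ) y) ^ 2 := by
    intro y
    have h2 : (∑ i ∈ P, ∑ j ∈ P, I i y * I j y) = f y * f y := by
      rw [hf, Finset.sum_mul_sum]
    have h3 : S.indicator (1 : ℝ → ℝ) y * S.indicator (1 : ℝ → ℝ) y =
        S.indicator (1 : ℝ → ℝ) y := by
      by_cases hy : y ∈ S
      · rw [indicator_of_mem hy]; simp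
      · rw [indicator_of_notMem hy]; simp
    have h4 := hfS y
    show (∑ i ∈ P, ∑ j ∈ P, I i y * I j y) - 2 * c * f y + c ^ 2 * S.indicator 1 y = _
    rw [h2]
    have e : (f y - c * S.indicator (1 : ℝ → ℝ) y) ^ 2 = f y * f y -
        2 * c * (f y * S.indicator (1 : ℝ → ℝ) y) +
          c ^ 2 * (S.indicator (1 : ℝ → ℝ) y * S.indicator (1 : ℝ → ℝ) y) := by ring
    rw [e, h3, h4]
  have hg0 : ∀ y, 0 ≤ g y := fun y => by rw [hg2]; positivity
  have h5 := mul_meas_ge_le_integral_of_nonneg (μ := volume)
    (Eventually.of_forall hg0) hgi (c ^ 2)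
  rw [h1] at h5
  rcases hc.eq_or_lt with hc0 | hc0
  · rw [← h1, ← hc0]
    simp only [ne_eq, OfNat.ofNat_ne_zero, not_false_eq_true, zero_pow, zero_mul]
    exact integral_nonneg hg0
  refine le_trans (mul_le_mul_of_nonneg_left ?_ (by positivity)) h5
  refine measureReal_mono ?_ ?_
  · intro y hy
    show c ^ 2 ≤ g y
    have hyS : y ∈ S := ⟨(hB hy).1, by linarith [(hB hy).2]⟩
    have hfy : f y = 0 := by
      rw [hf]
      refine Finset.sum_eq_zero fun j hj => ?_
      rw [hI]
      exact indicator_of_notMem (hBP y hy j hj) _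
    rw [hg2, hfy, indicator_of_mem hyS]
    simp
  · have h6 := hgi.measure_ge_lt_top (ε := c ^ 2) (by positivity)
    exact h6.ne

end Pool.Agent.MP_67227b_nt.Lg
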