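import Mathlib

set_option autoImplicit false

/-! # A covering lemma on the line -/

open Filter Topology Set MeasureTheory
open scoped Real

namespace Pool.Agent.MP_67227b_nt.Lg

/-- If every point of `G` has an interval of length `d` contained in `D` within distance `ρ`, the
measure of `G` is at most `6ρ/d` times the one of `D`. -/
theorem cover_meas {G D : Set ℝ} {A B ρ d : ℝ} (hρ : 0 < ρ) (hd : 0 < d) (hdρ : d ≤ ρ)
    (hD : volume D ≠ ⊤) (hG : G ⊆ Icc A B)
    (h : ∀ t ∈ G, ∃ x : ℝ, |x - t| ≤ ρ ∧ Ioo x (x + d) ⊆ D) :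
    volume.real G ≤ 6 * ρ / d * volume.real D := by
  classical
  have h3 : 0 < 3 * ρ := by positivity
  set C : Finset ℤ := (Finset.Icc ⌊A / (3 * ρ)⌋ ⌊B / (3 * ρ)⌋).filter
    (fun k => ∃ t ∈ G, ⌊t / (3 * ρ)⌋ = k) with hC
  have hmemC : ∀ t ∈ G, ⌊t / (3 * ρ)⌋ ∈ C := by
    intro t ht
    rw [hC, Finset.mem_filter, Finset.mem_Icc]
    refine ⟨⟨?_, ?_⟩, t, ht, rfl⟩
    · exact Int.floor_le_floor (div_le_div_of_nonneg_right (hG ht).1 h3.le)
    · exact Int.floor_le_floor (div_le_div_of_nonneg_right (hG ht).2 h3.le)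
  -- the measure of `G`
  have hGm : volume.real G ≤ C.card * (3 * ρ) := by
    have hsub : G ⊆ ⋃ k ∈ C, Icc (3 * ρ * (k : ℝ)) (3 * ρ * (k : ℝ) + 3 * ρ) := by
      intro t ht
      refine mem_iUnion₂.2 ⟨⌊t / (3 * ρ)⌋, hmemC t ht, ?_⟩
      have h1 := Int.floor_le (t / (3 * ρ))
      have h2 := Int.lt_floor_add_one (t / (3 * ρ))
      rw [le_div_iff₀ h3] at h1
      rw [div_lt_iff₀ h3] at h2
      constructor
      · linarith
      · nlinarith
    refine (measureReal_mono hsub ?_).trans ?_
    · exact ((measure_biUnion_finset_le _ _).trans_lt (ENNReal.sum_lt_top.2 fun k _ => by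
        rw [Real.volume_Icc]; exact ENNReal.ofReal_lt_top)).ne
    · refine (measureReal_biUnion_finset_le _ _).trans (le_of_eq ?_)
      have : ∀ k ∈ C, volume.real (Icc (3 * ρ * (k : ℝ)) (3 * ρ * (k : ℝ) + 3 * ρ)) = 3 * ρ := by
        intro k _
        rw [Real.volume_real_Icc_of_le (by linarith)]
        ring
      rw [Finset.sum_congr rfl this, Finset.sum_const, nsmul_eq_mul]
  -- representatives
  have hrep : ∀ k ∈ C, ∃ x : ℝ, 3 * ρ * (k : ℝ) - ρ ≤ x ∧ x + d ≤ 3 * ρ * (k : ℝ) + 5 * ρ ∧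
      Ioo x (x + d) ⊆ D := by
    intro k hk
    rw [hC, Finset.mem_filter] at hk
    obtain ⟨t, ht, rfl⟩ := hk.2
    obtain ⟨x, hx, hxD⟩ := h t ht
    have h1 := Int.floor_le (t / (3 * ρ))
    have h2 := Int.lt_floor_add_one (t / (3 * ρ))
    rw [le_div_iff₀ h3] at h1
    rw [div_lt_iff₀ h3] at h2
    rw [abs_le] at hx
    exact ⟨x, by linarith [hx.1], by nlinarith [hx.2], hxD⟩
  choose! x hx1 hx2 hx3 using hrep
  have hclass : ∀ e : ℤ, ((C.filter (fun k => k % 2 = e)).card : ℝ) * d ≤ volume.real D := by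
    intro e
    have hdisj : ((C.filter (fun k => k % 2 = e) : Finset ℤ) : Set ℤ).PairwiseDisjoint
        (fun k => Ioo (x k) (x k + d)) := by
      intro k hk k' hk' hne
      have hkC := (Finset.mem_filter.1 (Finset.mem_coe.1 hk))
      have hkC' := (Finset.mem_filter.1 (Finset.mem_coe.1 hk'))
      rw [Function.onFun, Set.disjoint_left]
      have key : ∀ k k' : ℤ, k ∈ C → k' ∈ C → k + 2 ≤ k' → ∀ y, y ∈ Ioo (x k) (x k + d) →
          y ∉ Ioo (x k') (x k' + d) := by
        intro k k' h1 h2 h4 y hy hy'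
        have h5 : (k : ℝ) + 2 ≤ k' := by exact_mod_cast h4
        have h6 := hx2 k h1
        have h7 := hx1 k' h2
        have h8 : 3 * ρ * ((k : ℝ) + 2) ≤ 3 * ρ * k' := mul_le_mul_of_nonneg_left h5 h3.le
        linarith [hy.2, hy'.1]
      rcases lt_trichotomy k k' with h1 | h1 | h1
      · have : k + 2 ≤ k' := by
          have h4 := hkC.2
          have h5 := hkC'.2
          omega
        exact fun y hy => key k k' hkC.1 hkC'.1 this y hy
      · exact absurd h1 hne
      · have : k' + 2 ≤ k := by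
          have h4 := hkC.2
          have h5 := hkC'.2
          omega
        exact fun y hy hy' => key k' k hkC'.1 hkC.1 this y hy' hy
    have hsub : (⋃ k ∈ C.filter (fun k => k % 2 = e), Ioo (x k) (x k + d)) ⊆ D := by
      intro y hy
      obtain ⟨k, hk, hky⟩ := mem_iUnion₂.1 hy
      exact hx3 k (Finset.mem_filter.1 hk).1 hky
    have h1 := measureReal_mono (μ := volume) hsub hD
    rw [measureReal_biUnion_finset hdisj (fun k _ => measurableSet_Ioo)
      (fun k _ => by rw [Real.volume_Ioo]; exact ENNReal.ofReal_ne_top)] at h1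
    refine le_trans (le_of_eq ?_) h1
    have : ∀ k ∈ C.filter (fun k => k % 2 = e), volume.real (Ioo (x k) (x k + d)) = d := by
      intro k _
      rw [Real.volume_real_Ioo_of_le (by linarith)]
      ring
    rw [Finset.sum_congr rfl this, Finset.sum_const, nsmul_eq_mul]
  have hsplit : (C.card : ℝ) * d ≤ 2 * volume.real D := by
    have h1 : C.card = (C.filter (fun k => k % 2 = 0)).card +
        (C.filter (fun k => k % 2 = 1)).card := by
      rw [← Finset.card_filter_add_card_filter_not (s := C) (fun k => k % 2 = 0)]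
      congr 2
      ext k
      simp only [Finset.mem_filter]
      constructor
      · rintro ⟨h1, h2⟩; exact ⟨h1, by omega⟩
      · rintro ⟨h1, h2⟩; exact ⟨h1, by omega⟩
    have h2 := hclass 0
    have h4 := hclass 1
    rw [h1]
    push_cast
    linarith
  have h5 : (C.card : ℝ) ≤ 2 * volume.real D / d := by
    rw [le_div_iff₀ hd]
    exact hsplit
  calc volume.real G ≤ C.card * (3 * ρ) := hGm
    _ ≤ 2 * volume.real D / d * (3 * ρ) := by gcongr
    _ = _ := by ring

end Pool.Agent.MP_67227b_nt.Lg
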