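import Mathlib

set_option autoImplicit false

/-! # A lower bound for smoothed counts -/

open Filter Topology Set MeasureTheory
open scoped Real

namespace Pool.Agent.MP_67227b_nt.Lg

/-- The Poisson kernel. -/
noncomputable def PK (b t x : ℝ) : ℝ := b / (b ^ 2 + (t - x) ^ 2)

lemma PK_pos {b : ℝ} (hb : 0 < b) (t x : ℝ) : 0 < PK b t x := by unfold PK; positivity

lemma PK_cont {b : ℝ} (hb : 0 < b) (t : ℝ) : Continuous (PK b t) := by
  unfold PK
  exact continuous_const.div (by fun_prop) (fun x => by positivity)

lemma arctan_le_self' {x : ℝ} (hx : 0 ≤ x) : Real.arctan x ≤ x := by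
  have h1 : Real.arctan x < π / 2 := Real.arctan_lt_pi_div_two x
  have h0 : 0 ≤ Real.arctan x := by
    rw [← Real.arctan_zero]
    exact Real.arctan_strictMono.monotone hx
  calc Real.arctan x ≤ Real.tan (Real.arctan x) := Real.le_tan h0 h1
    _ = x := Real.tan_arctan x

/-- The mass of the kernel near `t`. -/
lemma PK_mass {b R t : ℝ} (hb : 0 < b) (hR : 0 < R) :
    π - 2 * b / R ≤ ∫ x in (t - R)..(t + R), PK b t x := by
  have hd : ∀ x ∈ uIcc (t - R) (t + R), HasDerivAt (fun x : ℝ => Real.arctan ((x - t) / b))
      (PK b t x) x := by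
    intro x _
    have h1 : HasDerivAt (fun x : ℝ => (x - t) / b) (1 / b) x := by
      simpa using ((hasDerivAt_id x).sub_const t).div_const b
    have h2 := h1.arctan
    refine h2.congr_deriv ?_
    unfold PK
    field_simp
    ring
  rw [intervalIntegral.integral_eq_sub_of_hasDerivAt hd ((PK_cont hb t).intervalIntegrable _ _)]
  have e1 : (t + R - t) / b = R / b := by ring
  have e2 : (t - R - t) / b = -(R / b) := by ring
  rw [e1, e2, Real.arctan_neg]
  have h3 : Real.arctan (R / b)⁻¹ = π / 2 - Real.arctan (R / b) :=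
    Real.arctan_inv_of_pos (by positivity)
  have h4 : Real.arctan (R / b)⁻¹ ≤ b / R := by
    rw [inv_div]
    exact arctan_le_self' (by positivity)
  have h5 : 2 * b / R = 2 * (b / R) := by ring
  linarith

/-- One point. -/
lemma point_eq {b α t g : ℝ} (hα : 0 ≤ α) :
    ∫ y in (0 : ℝ)..α, b / (b ^ 2 + (t + y - g) ^ 2) =
      ∫ x, (Ico (g - α) g).indicator (PK b t) x := by
  rw [integral_indicator measurableSet_Ico, integral_Ico_eq_integral_Ioc,
    ← intervalIntegral.integral_of_le (by linarith)]
  have h1 := intervalIntegral.integral_comp_sub_left (a := 0) (b := α) (PK b t) g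
  rw [sub_zero] at h1
  rw [← h1]
  apply intervalIntegral.integral_congr
  intro y _
  unfold PK
  simp only
  congr 2
  ring

/-- **Lower bound for the smoothed count**: if every half-open interval of length `a < α` which
starts within `R` of `t` contains at least `m ≥ 1` points. -/
theorem pois_lower {ι : Type*} (S : Finset ι) (g : ι → ℝ) {m : ℕ} {a α b t R : ℝ} (hm : 1 ≤ m)
    (hb : 0 < b) (ha : 0 < a) (haα : a < α) (hR : 2 * α + 2 * a ≤ R)
    (h : ∀ x : ℝ, |x - t| ≤ R → m ≤ (S.filter fun i => g i ∈ Ioc x (x + a)).card) :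
    m * (π - 2 * b / R) + (α - a) * (b / (b ^ 2 + (α + a) ^ 2)) ≤
      ∑ i ∈ S, ∫ y in (0 : ℝ)..α, b / (b ^ 2 + (t + y - g i) ^ 2) := by
  classical
  have hα : 0 < α := ha.trans haα
  have hR0 : 0 < R := by linarith
  -- the extra point
  obtain ⟨i₀, hi₀⟩ : ∃ i, i ∈ S.filter fun i => g i ∈ Ioc (t + a) (t + a + a) := by
    apply Finset.card_pos.mp
    refine lt_of_lt_of_le (by omega) (h (t + a) ?_)
    rw [add_sub_cancel_left, abs_of_pos ha]
    linarith
  rw [Finset.mem_filter] at hi₀
  obtain ⟨hi₀S, hi₀g⟩ := hi₀
  set E : Set ℝ := Ico (g i₀ - α) (g i₀ - a) with hE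
  have hsum : ∑ i ∈ S, ∫ y in (0 : ℝ)..α, b / (b ^ 2 + (t + y - g i) ^ 2) =
      ∫ x, ∑ i ∈ S, (Ico (g i - α) (g i)).indicator (PK b t) x := by
    rw [integral_finsetSum]
    · exact Finset.sum_congr rfl fun i _ => point_eq hα.le
    · intro i _
      rw [integrable_indicator_iff measurableSet_Ico]
      exact ((PK_cont hb t).integrableOn_Icc (a := g i - α) (b := g i)).mono_set Ico_subset_Icc_self
  rw [hsum]
  have hptw : ∀ x : ℝ, (m : ℝ) * (Icc (t - R) (t + R)).indicator (PK b t) x +
      E.indicator (PK b t) x ≤ ∑ i ∈ S, (Ico (g i - α) (g i)).indicator (PK b t) x := by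
    intro x
    have hP := PK_pos hb t x
    have hs : ∑ i ∈ S, (Ico (g i - α) (g i)).indicator (PK b t) x =
        ((S.filter fun i => g i ∈ Ioc x (x + α)).card : ℝ) * PK b t x := by
      rw [← nsmul_eq_mul, ← Finset.sum_const, Finset.sum_filter]
      refine Finset.sum_congr rfl fun i _ => ?_
      by_cases hi : g i ∈ Ioc x (x + α)
      · rw [if_pos hi, indicator_of_mem]
        exact ⟨by linarith [hi.2], hi.1⟩
      · rw [if_neg hi, indicator_of_notMem]
        intro hx
        exact hi ⟨hx.2, by linarith [hx.1]⟩
    rw [hs]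
    by_cases hxR : x ∈ Icc (t - R) (t + R)
    · rw [indicator_of_mem hxR]
      have habs : |x - t| ≤ R := by
        rw [abs_le]
        exact ⟨by linarith [hxR.1], by linarith [hxR.2]⟩
      have hmx := h x habs
      have hsub : (S.filter fun i => g i ∈ Ioc x (x + a)) ⊆
          S.filter fun i => g i ∈ Ioc x (x + α) := by
        intro i hi
        rw [Finset.mem_filter] at hi ⊢
        exact ⟨hi.1, hi.2.1, by linarith [hi.2.2]⟩
      by_cases hxE : x ∈ E
      · rw [indicator_of_mem hxE]
        have h1 : (S.filter fun i => g i ∈ Ioc x (x + a)).card + 1 ≤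
            (S.filter fun i => g i ∈ Ioc x (x + α)).card := by
          apply Nat.succ_le_of_lt
          apply Finset.card_lt_card
          refine ⟨hsub, fun hc => ?_⟩
          have h2 : i₀ ∈ S.filter fun i => g i ∈ Ioc x (x + α) := by
            rw [Finset.mem_filter]
            exact ⟨hi₀S, by linarith [hxE.2], by linarith [hxE.1]⟩
          have h3 := hc h2
          rw [Finset.mem_filter] at h3
          linarith [h3.2.2, hxE.2]
        have h2 : (m : ℝ) + 1 ≤ ((S.filter fun i => g i ∈ Ioc x (x + α)).card : ℝ) := by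
          exact_mod_cast (Nat.succ_le_succ hmx).trans h1
        nlinarith
      · rw [indicator_of_notMem hxE, add_zero]
        have h2 : (m : ℝ) ≤ ((S.filter fun i => g i ∈ Ioc x (x + α)).card : ℝ) := by
          exact_mod_cast hmx.trans (Finset.card_le_card hsub)
        nlinarith
    · rw [indicator_of_notMem hxR, mul_zero, zero_add]
      by_cases hxE : x ∈ E
      · exfalso
        apply hxR
        have h1 := hxE.1
        have h2 := hxE.2
        have h3 := hi₀g.1
        have h4 := hi₀g.2
        exact ⟨by linarith, by linarith⟩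
      · rw [indicator_of_notMem hxE]
        positivity
  have hint1 : Integrable ((Icc (t - R) (t + R)).indicator (PK b t)) := by
    rw [integrable_indicator_iff measurableSet_Icc]
    exact (PK_cont hb t).integrableOn_Icc
  have hint2 : Integrable (E.indicator (PK b t)) := by
    rw [integrable_indicator_iff measurableSet_Ico]
    exact ((PK_cont hb t).integrableOn_Icc).mono_set Ico_subset_Icc_self
  have hint3 : Integrable fun x => ∑ i ∈ S, (Ico (g i - α) (g i)).indicator (PK b t) x := by
    apply integrable_finsetSum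
    intro i _
    rw [integrable_indicator_iff measurableSet_Ico]
    exact ((PK_cont hb t).integrableOn_Icc (a := g i - α) (b := g i)).mono_set Ico_subset_Icc_self
  have hmono := integral_mono ((hint1.const_mul (m : ℝ)).add hint2) hint3 hptw
  rw [integral_add' (hint1.const_mul (m : ℝ)) hint2, integral_const_mul] at hmono
  refine le_trans (add_le_add ?_ ?_) hmono
  · rw [integral_indicator measurableSet_Icc, integral_Icc_eq_integral_Ioc,
      ← intervalIntegral.integral_of_le (by linarith)]
    exact mul_le_mul_of_nonneg_left (PK_mass hb hR0) (Nat.cast_nonneg m)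
  · rw [integral_indicator measurableSet_Ico]
    have hvol : volume.real E = α - a := by
      rw [hE, Real.volume_real_Ico_of_le (by linarith)]
      ring
    have hle : ∀ x ∈ E, b / (b ^ 2 + (α + a) ^ 2) ≤ PK b t x := by
      intro x hx
      unfold PK
      apply div_le_div_of_nonneg_left hb.le (by positivity)
      have h1 : |t - x| ≤ α + a := by
        rw [abs_le]
        have h3 := hi₀g.1
        have h4 := hi₀g.2
        exact ⟨by linarith [hx.2], by linarith [hx.1]⟩
      have h2 := sq_le_sq' (by linarith [(abs_le.mp h1).1]) (abs_le.mp h1).2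
      linarith
    have hfin : volume E ≠ ⊤ := by
      rw [hE, Real.volume_Ico]
      exact ENNReal.ofReal_ne_top
    have := setIntegral_ge_of_const_le (μ := volume) (s := E) (f := PK b t)
      (c := b / (b ^ 2 + (α + a) ^ 2)) measurableSet_Ico hfin hle
      (((PK_cont hb t).integrableOn_Icc).mono_set Ico_subset_Icc_self)
    rw [hvol, smul_eq_mul] at this
    exact this

end Pool.Agent.MP_67227b_nt.Lg
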