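import Pool.Agent.MP_67227b_nt.Al.AlDefs
import Pool.Agent.MP_67227b_nt.Lg.LgPois

set_option autoImplicit false

open Filter Topology Set MeasureTheory Complex
open scoped Real ArithmeticFunction ContDiff

namespace Pool.Agent.MP_67227b_nt.Lg

open Pool.Agent.Lib.ZetaCount_helper33 Pool.Agent.MP_67227b_nt Pool.Agent.MP_67227b_nt.Mo
open Pool.Agent.MP_67227b_nt.Sg Pool.Agent.MP_67227b_nt.Pp

/-- The zero of `xi` of an index. -/
lemma exists_zer (j : ZetaZeroIdx) : ∃ z : Zer, z.1 = j.1.1 ∧ j.1.2 < analyticOrderNatAt xi z.1 ∧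
    ord z = zetaOrdinate j := by
  obtain ⟨⟨ρ, i⟩, h1, h2, h3⟩ := j
  have him : ρ.im ≠ 0 := ne_of_gt h2
  have hxi : xi ρ = 0 := (xi_eq_zero_iff him).mpr h1
  refine ⟨⟨ρ, hxi⟩, rfl, ?_, rfl⟩
  rw [xi_order_eq him]
  exact h3

/-- Sums over indices against sums over zeros. -/
lemma sum_idx_le (S' : Finset ZetaZeroIdx) (F : ℝ → ℝ) (hF : ∀ x, 0 ≤ F x) :
    ∃ S : Finset Zer, ∑ j ∈ S', F (zetaOrdinate j) ≤ ∑ z ∈ S, mu z * F (ord z) := by
  classical
  choose φ hφ1 hφ2 hφ3 using exists_zer
  refine ⟨S'.image φ, ?_⟩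
  rw [← Finset.sum_fiberwise_of_maps_to (s := S') (t := S'.image φ) (g := φ)
    (fun j hj => Finset.mem_image_of_mem φ hj)]
  refine Finset.sum_le_sum fun z _ => ?_
  have h1 : ∑ j ∈ S'.filter (fun j => φ j = z), F (zetaOrdinate j) =
      ((S'.filter (fun j => φ j = z)).card : ℝ) * F (ord z) := by
    rw [← nsmul_eq_mul, ← Finset.sum_const]
    refine Finset.sum_congr rfl fun j hj => ?_
    rw [Finset.mem_filter] at hj
    rw [← hj.2, hφ3]
  rw [h1]
  refine mul_le_mul_of_nonneg_right ?_ (hF _)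
  unfold mu
  have h2 : (S'.filter (fun j => φ j = z)).card ≤
      (Finset.range (analyticOrderNatAt xi z.1)).card := by
    apply Finset.card_le_card_of_injOn (fun j : ZetaZeroIdx => j.1.2)
    · intro j hj
      have hj' := (Finset.mem_filter.1 hj).2
      rw [Finset.mem_coe, Finset.mem_range, ← hj']
      exact hφ2 j
    · intro j hj j' hj' hjj
      have e1 := (Finset.mem_filter.1 hj).2
      have e2 := (Finset.mem_filter.1 hj').2
      have e3 : j.1.1 = j'.1.1 := by rw [← hφ1 j, ← hφ1 j', e1, e2]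
      exact Subtype.ext (Prod.ext e3 hjj)
  rw [Finset.card_range] at h2
  exact_mod_cast h2

/-- The smoothed count is at least its part over finitely many indices. -/
theorem Th_ge_idx (hRH : RiemannHypothesis) {b α t : ℝ} (hb : 0 < b) (hα : 0 ≤ α)
    (S' : Finset ZetaZeroIdx) :
    ∑ j ∈ S', ∫ y in (0 : ℝ)..α, b / (b ^ 2 + (t + y - zetaOrdinate j) ^ 2) ≤ Th α b t := by
  have hnn : ∀ x : ℝ, 0 ≤ ∫ y in (0 : ℝ)..α, b / (b ^ 2 + (t + y - x) ^ 2) := by
    intro x
    apply intervalIntegral.integral_nonneg hα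
    intro y _
    positivity
  obtain ⟨S, hS⟩ := sum_idx_le S' (fun x => ∫ y in (0 : ℝ)..α, b / (b ^ 2 + (t + y - x) ^ 2)) hnn
  refine hS.trans ?_
  have hc : ∀ x : ℝ, Continuous fun y : ℝ => b / (b ^ 2 + (t + y - x) ^ 2) := by
    intro x
    exact continuous_const.div (by fun_prop) (fun y => by positivity)
  have h1 : ∑ z ∈ S, mu z * ∫ y in (0 : ℝ)..α, b / (b ^ 2 + (t + y - ord z) ^ 2) =
      ∫ y in (0 : ℝ)..α, ∑ z ∈ S, mu z * (b / (b ^ 2 + (t + y - ord z) ^ 2)) := by
    rw [intervalIntegral.integral_finsetSum]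
    · refine Finset.sum_congr rfl fun z _ => ?_
      rw [intervalIntegral.integral_const_mul]
    · intro z _
      exact ((hc _).const_mul _).intervalIntegrable _ _
  rw [h1]
  unfold Th
  refine intervalIntegral.integral_mono_on hα ?_ ((SG5_cont hRH hb t).intervalIntegrable _ _) ?_
  · exact (continuous_finsetSum S fun z _ => (hc _).const_mul _).intervalIntegrable _ _
  · intro y _
    have h2 := hasSum_reF hRH hb (t + y)
    exact sum_le_hasSum S (fun z _ => mul_nonneg (mu_nonneg z) (by positivity)) h2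

/-- **If every half-open window of length `lam` near `t` contains at least `m` zeros, the smoothed
count of the window of length `u > lam` exceeds `m`.** -/
theorem Th_gapM (hRH : RiemannHypothesis) {m : ℕ} {lam u β : ℝ} (hm : 1 ≤ m) (hlam : 0 < lam)
    (hlu : lam < u) (hβ : 0 < β) : ∃ R : ℝ, 0 < R ∧
      ∀ T : ℝ, 1 < T → ∀ t : ℝ,
        (∀ x : ℝ, |x - t| ≤ R / Real.log T →
          m ≤ {j : ZetaZeroIdx | zetaOrdinate j ∈ Ioc x (x + 2 * π * lam / Real.log T)}.ncard) →
        m * π < Th (2 * π * u / Real.log T) (β / Real.log T) t := by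
  classical
  have hpi := Real.pi_pos
  have hu : 0 < u := hlam.trans hlu
  have hm0 : (0 : ℝ) < m := by exact_mod_cast hm
  -- the gain
  set c : ℝ := 2 * π * (u - lam) * (β / (β ^ 2 + (2 * π * (u + lam)) ^ 2)) with hc
  have hc0 : 0 < c := by
    have : 0 < u - lam := by linarith
    positivity
  set R : ℝ := max (4 * π * (u + lam)) (4 * m * β / c) with hR
  have hR1 : 4 * π * (u + lam) ≤ R := le_max_left _ _
  have hR2 : 4 * m * β / c ≤ R := le_max_right _ _
  have hR0 : 0 < R := lt_of_lt_of_le (by positivity) hR1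
  refine ⟨R, hR0, fun T hT t h => ?_⟩
  have hL : 0 < Real.log T := Real.log_pos hT
  set L := Real.log T with hLdef
  set b := β / L with hb
  set α := 2 * π * u / L with hα
  set a := 2 * π * lam / L with ha
  have hb0 : 0 < b := by positivity
  have hα0 : 0 < α := by positivity
  have ha0 : 0 < a := by positivity
  have haα : a < α := by
    rw [ha, hα]
    apply div_lt_div_of_pos_right _ hL
    nlinarith
  have hRα : 2 * α + 2 * a ≤ R / L := by
    rw [hα, ha, le_div_iff₀ hL]
    calc (2 * (2 * π * u / L) + 2 * (2 * π * lam / L)) * L = 4 * π * (u + lam) := by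
          field_simp
          ring
      _ ≤ R := hR1
  set S' : Finset ZetaZeroIdx := (goodFamily_zeta.fin (t + R / L + a)).toFinset with hS'
  have hcard : ∀ x : ℝ, |x - t| ≤ R / L →
      m ≤ (S'.filter fun j => zetaOrdinate j ∈ Ioc x (x + a)).card := by
    intro x hx
    have h1 : ((S'.filter fun j => zetaOrdinate j ∈ Ioc x (x + a) : Finset ZetaZeroIdx) :
        Set ZetaZeroIdx) = {j : ZetaZeroIdx | zetaOrdinate j ∈ Ioc x (x + a)} := by
      ext j
      simp only [Finset.coe_filter, hS', Set.Finite.mem_toFinset, Set.mem_ofPred_eq]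
      constructor
      · rintro ⟨_, h2⟩; exact h2
      · intro h2
        refine ⟨?_, h2⟩
        have := (abs_le.mp hx).2
        linarith [h2.2]
    have h2 := h x hx
    rw [← h1, Set.ncard_coe_finset] at h2
    exact h2
  have hlow := pois_lower S' zetaOrdinate (t := t) (R := R / L) hm hb0 ha0 haα hRα hcard
  have hTh := Th_ge_idx hRH (t := t) hb0 hα0.le S'
  refine lt_of_lt_of_le ?_ (hlow.trans hTh)
  have e1 : 2 * b / (R / L) = 2 * β / R := by
    rw [hb]; field_simp
  have e2 : (α - a) * (b / (b ^ 2 + (α + a) ^ 2)) = c := by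
    rw [hα, ha, hb, hc]
    field_simp
  rw [e1, e2]
  have h3 : (m : ℝ) * (2 * β / R) ≤ c / 2 := by
    rw [div_le_iff₀ hc0] at hR2
    rw [mul_div_assoc', div_le_iff₀ hR0]
    linarith
  have h4 : (m : ℝ) * (π - 2 * β / R) = m * π - m * (2 * β / R) := by ring
  rw [h4]
  linarith

end Pool.Agent.MP_67227b_nt.Lg
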