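import Pool.Agent.MP_67227b_nt.Al.AlMeas
import Pool.Agent.MP_67227b_nt.Lg.LgTh
import Pool.Agent.MP_67227b_nt.Lg.LgCov

set_option autoImplicit false

open Filter Topology Set MeasureTheory Complex
open scoped Real ArithmeticFunction ContDiff

namespace Pool.Agent.MP_67227b_nt.Lg

open Pool.Agent.Lib.ZetaCount_helper33 Pool.Agent.MP_67227b_nt Pool.Agent.MP_67227b_nt.Mo
open Pool.Agent.MP_67227b_nt.Sg Pool.Agent.MP_67227b_nt.Pp Pool.Agent.MP_67227b_nt.Al

/-- The number of zeros (with multiplicity) with ordinates in the half-open interval `(t, t+a]`. -/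
noncomputable def nz (t a : ℝ) : ℕ := {j : ZetaZeroIdx | zetaOrdinate j ∈ Ioc t (t + a)}.ncard

lemma nz_mono {t a x b : ℝ} (h1 : x ≤ t) (h2 : t + a ≤ x + b) : nz t a ≤ nz x b := by
  unfold nz
  refine Set.ncard_le_ncard ?_ ((goodFamily_zeta.fin (x + b)).subset fun j hj => hj.2)
  intro j hj
  exact ⟨lt_of_le_of_lt h1 hj.1, hj.2.trans h2⟩

/-- The points of `[T - H, T]` followed by fewer than `m` zeros in `(t, t+a]`. -/
def gapSet (m : ℕ) (T H a : ℝ) : Set ℝ := {t ∈ Icc (T - H) T | nz t a < m}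

/-- **From a gain to a positive proportion of the points of the window.** -/
theorem meas_gap (hRH : RiemannHypothesis) {m : ℕ} {lam u θ κ : ℝ} (hm : 1 ≤ m) (hlam : 0 < lam)
    (hlu : lam < u) (hθ0 : 0 < θ) (hθ1 : θ ≤ 1) (hκ : 0 < κ) (hκθ : κ < θ)
    (hG : Gain 1 u κ (1 * (u - m))) :
    ∃ c : ℝ, 0 < c ∧ ∀ᶠ T : ℝ in atTop, c * T ^ θ ≤
      volume.real (gapSet m T (T ^ θ) (2 * π * lam / Real.log T)) := by
  have hpi := Real.pi_pos
  have hu : 0 < u := hlam.trans hlu
  obtain ⟨lam', h1, h2⟩ := exists_between hlu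
  have hlam' : 0 < lam' := hlam.trans h1
  obtain ⟨β, c₃, hβ, hc₃, hE⟩ := meas_al hRH (Or.inl rfl) hu hκ hκθ hθ1 hG
  obtain ⟨R, hR, hTh⟩ := Th_gapM hRH hm hlam' h2 hβ
  set R' : ℝ := max R (2 * π * (lam' - lam)) with hR'
  have hRR : R ≤ R' := le_max_left _ _
  have hRd : 2 * π * (lam' - lam) ≤ R' := le_max_right _ _
  have hR'0 : 0 < R' := lt_of_lt_of_le hR hRR
  have hd0 : 0 < 2 * π * (lam' - lam) := by
    have : 0 < lam' - lam := by linarith
    positivity
  refine ⟨c₃ * (2 * π * (lam' - lam)) / (24 * R'), by positivity, ?_⟩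
  have ev1 : ∀ᶠ T : ℝ in atTop, 8 * (R' + 2 * π * (lam' - lam)) + 8 ≤ T ^ θ :=
    (tendsto_rpow_atTop hθ0).eventually_ge_atTop _
  have ev2 : ∀ᶠ T : ℝ in atTop, (1 : ℝ) ≤ Real.log T := Real.tendsto_log_atTop.eventually_ge_atTop _
  filter_upwards [hE, ev1, ev2, eventually_gt_atTop 1] with T hE h16 hL1 hT1
  have hT : 0 < T := by linarith
  have hHT : T ^ θ ≤ T := by
    calc T ^ θ ≤ T ^ (1 : ℝ) := Real.rpow_le_rpow_of_exponent_le hT1.le hθ1
      _ = T := Real.rpow_one T
  set H : ℝ := T ^ θ with hH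
  set L := Real.log T with hL
  have hL0 : 0 < L := by linarith
  set A : ℝ := T - 3 / 8 * H with hA
  set W : ℝ := H / 4 with hW
  have hE' := hE A W (by linarith) (by linarith) (by linarith)
  set ρ : ℝ := R' / L with hρ
  set d : ℝ := 2 * π * (lam' - lam) / L with hd
  have hρ0 : 0 < ρ := by positivity
  have hdp : 0 < d := by positivity
  have hdρ : d ≤ ρ := div_le_div_of_nonneg_right hRd hL0.le
  have hρ1 : ρ ≤ R' := div_le_self hR'0.le hL1
  have hd1 : d ≤ 2 * π * (lam' - lam) := div_le_self hd0.le hL1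
  set D := gapSet m T H (2 * π * lam / L) with hD
  have hDfin : volume D ≠ ⊤ := by
    have hfin : volume (Icc (T - H) T) ≠ ⊤ := by
      rw [Real.volume_Icc]; exact ENNReal.ofReal_ne_top
    exact measure_ne_top_of_subset (fun t ht => ht.1) hfin
  have hcov := cover_meas (G := {t ∈ Icc A (A + W) |
      1 * (Th (2 * π * u / L) (β / L) t - m * π) < 0}) (D := D) (A := A) (B := A + W)
      hρ0 hdp hdρ hDfin (fun t ht => ht.1) (by
    rintro t ⟨ht, hth⟩
    have hneg : ¬ ∀ x : ℝ, |x - t| ≤ R / L →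
        m ≤ {j : ZetaZeroIdx | zetaOrdinate j ∈ Ioc x (x + 2 * π * lam' / L)}.ncard := by
      intro hall
      have := hTh T hT1 t hall
      linarith
    push Not at hneg
    obtain ⟨x, hx1, hx2⟩ := hneg
    have hx3 : |x - t| ≤ ρ := hx1.trans (div_le_div_of_nonneg_right hRR hL0.le)
    refine ⟨x, hx3, ?_⟩
    intro y hy
    have hx4 := abs_le.1 hx3
    refine ⟨⟨?_, ?_⟩, ?_⟩
    · linarith [ht.1, hy.1, hx4.1]
    · linarith [ht.2, hy.2, hx4.2]
    · refine lt_of_le_of_lt (nz_mono (x := x) (b := 2 * π * lam' / L) hy.1.le ?_) hx2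
      have : 2 * π * lam' / L = d + 2 * π * lam / L := by
        rw [hd]
        field_simp
        ring
      linarith [hy.2])
  have h3 : c₃ * W ≤ 6 * ρ / d * volume.real D := hE'.trans hcov
  have h4 : 6 * ρ / d = 6 * R' / (2 * π * (lam' - lam)) := by
    rw [hρ, hd]
    field_simp
  rw [h4] at h3
  have h5 : c₃ * (2 * π * (lam' - lam)) / (24 * R') * H =
      (2 * π * (lam' - lam)) / (6 * R') * (c₃ * W) := by
    rw [hW]
    field_simp
    ring
  rw [h5]
  calc (2 * π * (lam' - lam)) / (6 * R') * (c₃ * W) ≤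
      (2 * π * (lam' - lam)) / (6 * R') * (6 * R' / (2 * π * (lam' - lam)) * volume.real D) :=
        mul_le_mul_of_nonneg_left h3 (by positivity)
    _ = volume.real D := by
        have h6 : (lam' - lam) ≠ 0 := by
          have : 0 < lam' - lam := by linarith
          exact this.ne'
        field_simp

end Pool.Agent.MP_67227b_nt.Lg
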