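import Pool.Agent.MP_67227b_nt.Mo.PairLLNZeta
import Pool.Agent.MP_67227b_nt.Lg.LgEmpty
import Pool.Agent.MP_67227b_nt.Lg.LgMeas

set_option autoImplicit false

open Filter Topology Set MeasureTheory
open scoped Real

namespace Pool.Agent.MP_67227b_nt.Lg

open Pool.Agent.Lib.ZetaCount_helper33 Pool.Agent.MP_67227b_nt Pool.Agent.MP_67227b_nt.Mo

/-- The points of `[0, T]` without a zero in `[t - w, t]`. -/
def emptySet (T w : ℝ) : Set ℝ :=
  {t ∈ Icc 0 T | ∀ j : ZetaZeroIdx, t ∉ Icc (zetaOrdinate j) (zetaOrdinate j + w)}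

/-- Few points have no zero shortly before them. -/
theorem empty_small (hRH : RiemannHypothesis) {ε : ℝ} (hε : 0 < ε) : ∃ V : ℝ, 0 < V ∧
    ∀ᶠ T : ℝ in atTop, volume.real (emptySet T (2 * π * V / Real.log T)) ≤ ε * T := by
  have hpi := Real.pi_pos
  set ε₁ : ℝ := ε / 6 with hε₁
  have hε₁0 : 0 < ε₁ := by positivity
  obtain ⟨V₀, hV₀, hlln⟩ := pairLLN_zeta hRH ε₁ hε₁0
  set V : ℝ := max V₀ 1 with hV
  have hV1 : 1 ≤ V := le_max_right _ _
  have hV0 : 0 < V := by linarith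
  refine ⟨V, hV0, ?_⟩
  have h1 := hlln V (le_max_left _ _) ε₁ hε₁0
  have h2 : ∀ᶠ T : ℝ in atTop, 1 - ε₁ <
      ({j | zetaOrdinate j ≤ T}.ncard : ℝ) / zeroScale T :=
    goodFamily_zeta.count.eventually (lt_mem_nhds (by linarith))
  have h3 : ∀ᶠ T : ℝ in atTop, 2 * π * V / ε₁ ≤ T := eventually_ge_atTop _
  have h4 : ∀ᶠ T : ℝ in atTop, (1 : ℝ) ≤ Real.log T := Real.tendsto_log_atTop.eventually_ge_atTop _
  filter_upwards [h1, h2, h3, h4, eventually_gt_atTop 1] with T h1 h2 h3 hL1 hT1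
  have hT : 0 < T := by linarith
  have hL0 : 0 < Real.log T := by linarith
  set L := Real.log T with hL
  set w : ℝ := 2 * π * V / L with hw
  have hw0 : 0 < w := by positivity
  have hz : 0 < zeroScale T := zeroScale_pos hT1
  set P := PT goodFamily_zeta T with hP
  have hmain := empty_meas P zetaOrdinate (c := V) hw0 hV0.le hT.le
    (fun j hj => ⟨(goodFamily_zeta.pos j).le, (mem_PT goodFamily_zeta T j).1 hj⟩)
    (B := emptySet T w) (fun t ht => ht.1) (fun t ht j _ => ht.2 j)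
  -- the double sum
  have e1 : (∑ i ∈ P, ∑ j ∈ P, max (w - |zetaOrdinate i - zetaOrdinate j|) 0) =
      2 * π / L * ∑ i ∈ P, ∑ j ∈ P, max (V - |xT zetaOrdinate T i - xT zetaOrdinate T j|) 0 := by
    rw [Finset.mul_sum]
    refine Finset.sum_congr rfl fun i _ => ?_
    rw [Finset.mul_sum]
    refine Finset.sum_congr rfl fun j _ => ?_
    have hc : 0 < 2 * π / L := by positivity
    rw [mul_max_of_nonneg _ _ hc.le, mul_zero]
    congr 1
    unfold xT
    rw [← hL, ← sub_mul, abs_mul, abs_of_pos (by positivity : 0 < L / (2 * π)), mul_sub, hw]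
    field_simp
  rw [div_le_iff₀ hz] at h1
  rw [lt_div_iff₀ hz, ← card_PT goodFamily_zeta T, ← hP] at h2
  have e2 : 2 * π / L * zeroScale T = T := by
    unfold zeroScale
    rw [← hL]
    field_simp
  have h5 : (∑ i ∈ P, ∑ j ∈ P, max (w - |zetaOrdinate i - zetaOrdinate j|) 0) ≤
      ((1 + ε₁) * V ^ 2 + ε₁) * T := by
    rw [e1]
    calc 2 * π / L * _ ≤ 2 * π / L * (((1 + ε₁) * V ^ 2 + ε₁) * zeroScale T) :=
          mul_le_mul_of_nonneg_left h1 (by positivity)
      _ = ((1 + ε₁) * V ^ 2 + ε₁) * (2 * π / L * zeroScale T) := by ring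
      _ = _ := by rw [e2]
  have h6 : 2 * V * (w * P.card) ≥ 2 * V ^ 2 * (1 - ε₁) * T := by
    have h7 : w * P.card ≥ w * ((1 - ε₁) * zeroScale T) :=
      mul_le_mul_of_nonneg_left h2.le hw0.le
    have h8 : w * ((1 - ε₁) * zeroScale T) = V * (1 - ε₁) * T := by
      rw [hw]
      calc 2 * π * V / L * ((1 - ε₁) * zeroScale T) =
          V * (1 - ε₁) * (2 * π / L * zeroScale T) := by ring
        _ = _ := by rw [e2]
    have h9 : 2 * V * (w * P.card) ≥ 2 * V * (V * (1 - ε₁) * T) :=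
      mul_le_mul_of_nonneg_left (by rw [← h8]; exact h7) (by positivity)
    calc 2 * V * (w * P.card) ≥ 2 * V * (V * (1 - ε₁) * T) := h9
      _ = _ := by ring
  have h10 : w ≤ ε₁ * T := by
    have h11 : w ≤ 2 * π * V := div_le_self (by positivity) hL1
    rw [div_le_iff₀ hε₁0] at h3
    linarith
  have h12 : ε₁ * T ≤ ε₁ * V ^ 2 * T := by
    have : 1 ≤ V ^ 2 := by nlinarith
    have := mul_le_mul_of_nonneg_left this (by positivity : 0 ≤ ε₁ * T)
    linarith
  have h13 : V ^ 2 * w ≤ V ^ 2 * (ε₁ * T) := mul_le_mul_of_nonneg_left h10 (by positivity)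
  have h14 : V ^ 2 * volume.real (emptySet T w) ≤ V ^ 2 * (ε * T) := by
    have e3 : ε = 6 * ε₁ := by rw [hε₁]; ring
    rw [e3]
    nlinarith
  exact le_of_mul_le_mul_left h14 (by positivity)

/-- The ordinates `g ≤ T` of zeros such that fewer than `m` zeros have ordinates in `(g, g+a]`. -/
def gapOrd (m : ℕ) (T a : ℝ) : Set ℝ :=
  {g : ℝ | g ≤ T ∧ (∃ j : ZetaZeroIdx, zetaOrdinate j = g) ∧ nz g a < m}

lemma gapOrd_finite (m : ℕ) (T a : ℝ) : (gapOrd m T a).Finite := by
  refine ((goodFamily_zeta.fin T).image zetaOrdinate).subset ?_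
  rintro g ⟨h1, ⟨j, rfl⟩, -⟩
  exact ⟨j, h1, rfl⟩

/-- **From points to ordinates.** -/
theorem count_gap (hRH : RiemannHypothesis) {m : ℕ} {lam c : ℝ} (hc : 0 < c)
    (hD : ∀ᶠ T : ℝ in atTop, c * T ≤
      volume.real (gapSet m T T (2 * π * lam / Real.log T))) :
    ∃ c' : ℝ, 0 < c' ∧ ∀ᶠ T : ℝ in atTop, c' * (T * Real.log T) ≤
      ((gapOrd m T (2 * π * lam / Real.log T)).ncard : ℝ) := by
  classical
  have hpi := Real.pi_pos
  obtain ⟨V, hV, hE⟩ := empty_small hRH (half_pos hc)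
  refine ⟨c / (4 * π * V), by positivity, ?_⟩
  filter_upwards [hD, hE, eventually_gt_atTop 1] with T hD hE hT1
  have hT : 0 < T := by linarith
  have hL0 : 0 < Real.log T := Real.log_pos hT1
  set L := Real.log T with hL
  set w : ℝ := 2 * π * V / L with hw
  have hw0 : 0 < w := by positivity
  set a := 2 * π * lam / L with ha
  have hfin := gapOrd_finite m T a
  have hsub : gapSet m T T a ⊆ emptySet T w ∪ ⋃ g ∈ hfin.toFinset, Icc g (g + w) := by
    rintro t ⟨⟨ht0, htT⟩, hnz⟩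
    rw [sub_self] at ht0
    by_cases hte : t ∈ emptySet T w
    · exact Or.inl hte
    right
    have h1 : ∃ j : ZetaZeroIdx, t ∈ Icc (zetaOrdinate j) (zetaOrdinate j + w) := by
      by_contra hno
      push Not at hno
      exact hte ⟨⟨ht0, htT⟩, hno⟩
    obtain ⟨j₀, hj₀⟩ := h1
    -- the last ordinate up to `t`
    have hfint := goodFamily_zeta.fin t
    obtain ⟨j, hj, hmax⟩ := Set.exists_max_image {j : ZetaZeroIdx | zetaOrdinate j ≤ t}
      zetaOrdinate hfint ⟨j₀, hj₀.1⟩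
    have hjt : zetaOrdinate j ≤ t := hj
    refine mem_iUnion₂.2 ⟨zetaOrdinate j, ?_, hjt, ?_⟩
    · rw [Set.Finite.mem_toFinset]
      refine ⟨hjt.trans htT, ⟨j, rfl⟩, lt_of_le_of_lt ?_ hnz⟩
      unfold nz
      refine Set.ncard_le_ncard ?_ ((goodFamily_zeta.fin (t + a)).subset fun i hi => hi.2)
      intro i hi
      refine ⟨?_, hi.2.trans (by linarith)⟩
      by_contra hcon
      push Not at hcon
      exact absurd (hmax i hcon) (not_le.2 hi.1)
    · have := hmax j₀ hj₀.1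
      linarith [hj₀.2]
  have hEfin : volume (emptySet T w) ≠ ⊤ := by
    have hf : volume (Icc 0 T) ≠ ⊤ := by
      rw [Real.volume_Icc]; exact ENNReal.ofReal_ne_top
    exact measure_ne_top_of_subset (fun t ht => ht.1) hf
  have hUfin : volume (⋃ g ∈ hfin.toFinset, Icc g (g + w)) ≠ ⊤ :=
    ((measure_biUnion_finset_le _ _).trans_lt (ENNReal.sum_lt_top.2 fun k _ => by
        rw [Real.volume_Icc]; exact ENNReal.ofReal_lt_top)).ne
  have h2 := (measureReal_mono hsub (measure_union_ne_top hEfin hUfin)).trans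
    (measureReal_union_le _ _)
  have h3 : volume.real (⋃ g ∈ hfin.toFinset, Icc g (g + w)) ≤
      ((gapOrd m T a).ncard : ℝ) * w := by
    refine (measureReal_biUnion_finset_le _ _).trans (le_of_eq ?_)
    have : ∀ g ∈ hfin.toFinset, volume.real (Icc g (g + w)) = w := by
      intro g _
      rw [Real.volume_real_Icc_of_le (by linarith)]
      ring
    rw [Finset.sum_congr rfl this, Finset.sum_const, nsmul_eq_mul,
      Set.ncard_eq_toFinset_card _ hfin]
  have h4 : c / 2 * T ≤ ((gapOrd m T a).ncard : ℝ) * w := by linarith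
  have h5 : c / (4 * π * V) * (T * L) = (c / 2 * T) / w := by
    rw [hw]
    field_simp
    ring
  rw [h5, div_le_iff₀ hw0]
  exact h4

end Pool.Agent.MP_67227b_nt.Lg
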