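import Pool.Agent.MP_67227b_nt.Lg.LgSin

set_option autoImplicit false

/-! # The gain at `2.37` -/

open Set MeasureTheory
open scoped Real

namespace Pool.Agent.MP_67227b_nt.Lg

/-- The gain `(2√q/π) ∫_0^1 |sin (π s y)| (1-y)^q dy/y`. -/
noncomputable def GS (q s : ℝ) : ℝ :=
  2 * Real.sqrt q / π * ∫ y in (0 : ℝ)..1, |Real.sin (π * s * y)| / y * (1 - y) ^ q

/-- The kernel `|sin (π s y)|/y`, extended continuously. -/
noncomputable def ks (s y : ℝ) : ℝ := π * s * |Real.sinc (π * s * y)|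

lemma ks_cont (s : ℝ) : Continuous (ks s) := by
  unfold ks
  exact continuous_const.mul ((Real.continuous_sinc.comp (by fun_prop)).abs)

lemma ks_nonneg {s : ℝ} (hs : 0 ≤ s) (y : ℝ) : 0 ≤ ks s y := by
  unfold ks
  have := Real.pi_pos
  positivity

lemma ks_eq {s y : ℝ} (hs : 0 < s) (hy : 0 < y) : |Real.sin (π * s * y)| / y = ks s y := by
  unfold ks
  have h1 : 0 < π * s * y := mul_pos (mul_pos Real.pi_pos hs) hy
  rw [Real.sinc_of_ne_zero h1.ne', abs_div, abs_of_pos h1]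
  have := Real.pi_pos
  field_simp

lemma int_poly (n : ℕ) (c : ℕ → ℝ) (a b : ℝ) :
    ∫ x in a..b, ∑ i ∈ Finset.range n, c i * x ^ i =
      ∑ i ∈ Finset.range n, c i * ((b ^ (i + 1) - a ^ (i + 1)) / (i + 1)) := by
  rw [intervalIntegral.integral_finsetSum]
  · refine Finset.sum_congr rfl fun i _ => ?_
    rw [intervalIntegral.integral_const_mul, integral_pow]
  · intro i _
    exact (continuous_const.mul (continuous_pow i)).intervalIntegrable _ _

/-- coefficients on the first arch -/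
noncomputable def cA (i : ℕ) : ℝ := ([744557/100000, -744557/25000, -2411947/100000, 1533683/6250, -21462991/100000, -12188897/25000, 82361327/100000, 3050157/12500, -28141079/25000, 2895001/12500, 10167037/12500, -4806153/12500, -19609327/50000, 1220774/3125, -610387/6250] : List ℝ).getD i 0

/-- coefficients on the second arch -/
noncomputable def cB (i : ℕ) : ℝ := ([1881/3125, -47730471/625000, 79317774687/125000000, -31165018119921/12500000000, 2005782324148293/250000000000, -3743343729379162107/125000000000000, 1297876579950669477501/12500000000000000, -332825966299866375070191/1250000000000000000, 602604362247332226488637/1250000000000000000, -386052208950279631081401/625000000000000000, 34954755484111465162707/62500000000000000, -87786508645915639566039/250000000000000000, 182234658411565271255421/1250000000000000000, -11267511163449531758523/312500000000000000, 2516871013890234709491/625000000000000000] : List ℝ).getD i 0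

lemma cA_eq (y : ℝ) : (7.44557 - 68.79289 * y ^ 2 + 190.68186 * y ^ 4 - 251.685 * y ^ 6 +
    193.78498 * y ^ 8 - 97.66192 * y ^ 10) * (1 - y) ^ 4 = ∑ i ∈ Finset.range 15, cA i * y ^ i := by
  simp only [Finset.sum_range_succ, Finset.sum_range_zero, cA, List.getD_cons_zero,
    List.getD_cons_succ]
  ring

lemma cB_eq (y : ℝ) : (3.14159 * (2.37 * y - 1) - 5.16772 * (2.37 * y - 1) ^ 3 +
    2.55016 * (2.37 * y - 1) ^ 5 - 0.59927 * (2.37 * y - 1) ^ 7) *
    (2 * (1 - (2 * y - 1)) * (1 + (2 * y - 1) ^ 2)) * (1 - y) ^ 4 =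
      ∑ i ∈ Finset.range 15, cB i * y ^ i := by
  simp only [Finset.sum_range_succ, Finset.sum_range_zero, cB, List.getD_cons_zero,
    List.getD_cons_succ]
  ring

lemma cA_int : (1.06456 : ℝ) ≤ ∑ i ∈ Finset.range 15,
    cA i * (((100 / 237 : ℝ) ^ (i + 1) - 0 ^ (i + 1)) / (i + 1)) := by
  simp only [Finset.sum_range_succ, Finset.sum_range_zero, cA, List.getD_cons_zero,
    List.getD_cons_succ]
  norm_num

lemma cB_int : (0.01227 : ℝ) ≤ ∑ i ∈ Finset.range 15,
    cB i * (((200 / 237 : ℝ) ^ (i + 1) - (100 / 237) ^ (i + 1)) / (i + 1)) := by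
  simp only [Finset.sum_range_succ, Finset.sum_range_zero, cB, List.getD_cons_zero,
    List.getD_cons_succ]
  norm_num

lemma arch1 {y : ℝ} (hy : 0 < y) : (7.44557 - 68.79289 * y ^ 2 + 190.68186 * y ^ 4 -
    251.685 * y ^ 6 + 193.78498 * y ^ 8 - 97.66192 * y ^ 10) ≤ ks 2.37 y := by
  rw [← ks_eq (by norm_num) hy, le_div_iff₀ hy]
  have hl := Real.pi_gt_d6
  have hu := Real.pi_lt_d6
  have hp := Real.pi_pos
  have h1 := sin_ge_six (z := π * 2.37 * y) (by positivity)
  have h2 := le_abs_self (Real.sin (π * 2.37 * y))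
  have u3 : π ^ 3 ≤ 3.141593 ^ 3 := pow_le_pow_left₀ hp.le hu.le 3
  have l5 : 3.141592 ^ 5 ≤ π ^ 5 := pow_le_pow_left₀ (by norm_num) hl.le 5
  have u7 : π ^ 7 ≤ 3.141593 ^ 7 := pow_le_pow_left₀ hp.le hu.le 7
  have l9 : 3.141592 ^ 9 ≤ π ^ 9 := pow_le_pow_left₀ (by norm_num) hl.le 9
  have u11 : π ^ 11 ≤ 3.141593 ^ 11 := pow_le_pow_left₀ hp.le hu.le 11
  have e1 : 7.44557 * y ≤ π * 2.37 * y := by
    apply mul_le_mul_of_nonneg_right _ hy.le
    norm_num at hl ⊢
    linarith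
  have e3 : (π * 2.37 * y) ^ 3 / 6 ≤ 68.79289 * y ^ 3 := by
    have : (π * 2.37 * y) ^ 3 / 6 = (π ^ 3 * (2.37 ^ 3 / 6)) * y ^ 3 := by ring
    rw [this]
    apply mul_le_mul_of_nonneg_right _ (by positivity)
    calc π ^ 3 * (2.37 ^ 3 / 6) ≤ 3.141593 ^ 3 * (2.37 ^ 3 / 6) :=
          mul_le_mul_of_nonneg_right u3 (by norm_num)
      _ ≤ 68.79289 := by norm_num
  have e5 : 190.68186 * y ^ 5 ≤ (π * 2.37 * y) ^ 5 / 120 := by
    have : (π * 2.37 * y) ^ 5 / 120 = (π ^ 5 * (2.37 ^ 5 / 120)) * y ^ 5 := by ring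
    rw [this]
    apply mul_le_mul_of_nonneg_right _ (by positivity)
    calc (190.68186 : ℝ) ≤ 3.141592 ^ 5 * (2.37 ^ 5 / 120) := by norm_num
      _ ≤ _ := mul_le_mul_of_nonneg_right l5 (by norm_num)
  have e7 : (π * 2.37 * y) ^ 7 / 5040 ≤ 251.685 * y ^ 7 := by
    have : (π * 2.37 * y) ^ 7 / 5040 = (π ^ 7 * (2.37 ^ 7 / 5040)) * y ^ 7 := by ring
    rw [this]
    apply mul_le_mul_of_nonneg_right _ (by positivity)
    calc π ^ 7 * (2.37 ^ 7 / 5040) ≤ 3.141593 ^ 7 * (2.37 ^ 7 / 5040) :=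
          mul_le_mul_of_nonneg_right u7 (by norm_num)
      _ ≤ 251.685 := by norm_num
  have e9 : 193.78498 * y ^ 9 ≤ (π * 2.37 * y) ^ 9 / 362880 := by
    have : (π * 2.37 * y) ^ 9 / 362880 = (π ^ 9 * (2.37 ^ 9 / 362880)) * y ^ 9 := by ring
    rw [this]
    apply mul_le_mul_of_nonneg_right _ (by positivity)
    calc (193.78498 : ℝ) ≤ 3.141592 ^ 9 * (2.37 ^ 9 / 362880) := by norm_num
      _ ≤ _ := mul_le_mul_of_nonneg_right l9 (by norm_num)
  have e11 : (π * 2.37 * y) ^ 11 / 39916800 ≤ 97.66192 * y ^ 11 := by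
    have : (π * 2.37 * y) ^ 11 / 39916800 = (π ^ 11 * (2.37 ^ 11 / 39916800)) * y ^ 11 := by ring
    rw [this]
    apply mul_le_mul_of_nonneg_right _ (by positivity)
    calc π ^ 11 * (2.37 ^ 11 / 39916800) ≤ 3.141593 ^ 11 * (2.37 ^ 11 / 39916800) :=
          mul_le_mul_of_nonneg_right u11 (by norm_num)
      _ ≤ 97.66192 := by norm_num
  have e : (7.44557 - 68.79289 * y ^ 2 + 190.68186 * y ^ 4 -
      251.685 * y ^ 6 + 193.78498 * y ^ 8 - 97.66192 * y ^ 10) * y =
      7.44557 * y - 68.79289 * y ^ 3 + 190.68186 * y ^ 5 -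
      251.685 * y ^ 7 + 193.78498 * y ^ 9 - 97.66192 * y ^ 11 := by ring
  rw [e]
  linarith

theorem sin_ge_four {z : ℝ} (hz : 0 ≤ z) : z - z ^ 3 / 6 + z ^ 5 / 120 - z ^ 7 / 5040 ≤
    Real.sin z := by
  have h := (sin_cos_bounds 3).2 z hz
  unfold Sn at h
  simp only [Finset.sum_range_succ, Finset.sum_range_zero] at h
  norm_num [Nat.factorial] at h
  linarith

lemma arch2 {y : ℝ} (hy : 100 / 237 ≤ y) (hy1 : y ≤ 1) :
    (3.14159 * (2.37 * y - 1) - 5.16772 * (2.37 * y - 1) ^ 3 +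
    2.55016 * (2.37 * y - 1) ^ 5 - 0.59927 * (2.37 * y - 1) ^ 7) *
    (2 * (1 - (2 * y - 1)) * (1 + (2 * y - 1) ^ 2)) ≤ ks 2.37 y := by
  have hy0 : 0 < y := by linarith
  rw [← ks_eq (by norm_num) hy0]
  have hl := Real.pi_gt_d6
  have hu := Real.pi_lt_d6
  have hp := Real.pi_pos
  set v : ℝ := 2.37 * y - 1 with hv
  have hv0 : 0 ≤ v := by rw [hv]; norm_num at hy ⊢; linarith
  have h1 := sin_ge_four (z := π * v) (by positivity)
  have h2 : Real.sin (π * v) ≤ |Real.sin (π * 2.37 * y)| := by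
    have : Real.sin (π * 2.37 * y) = -Real.sin (π * v) := by
      rw [← Real.sin_add_pi]
      congr 1
      rw [hv]
      ring
    rw [this, abs_neg]
    exact le_abs_self _
  have u3 : π ^ 3 ≤ 3.141593 ^ 3 := pow_le_pow_left₀ hp.le hu.le 3
  have l5 : 3.141592 ^ 5 ≤ π ^ 5 := pow_le_pow_left₀ (by norm_num) hl.le 5
  have u7 : π ^ 7 ≤ 3.141593 ^ 7 := pow_le_pow_left₀ hp.le hu.le 7
  have e1 : 3.14159 * v ≤ π * v := by
    apply mul_le_mul_of_nonneg_right _ hv0
    norm_num at hl ⊢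
    linarith
  have e3 : (π * v) ^ 3 / 6 ≤ 5.16772 * v ^ 3 := by
    have : (π * v) ^ 3 / 6 = (π ^ 3 / 6) * v ^ 3 := by ring
    rw [this]
    apply mul_le_mul_of_nonneg_right _ (by positivity)
    norm_num at u3 ⊢
    linarith
  have e5 : 2.55016 * v ^ 5 ≤ (π * v) ^ 5 / 120 := by
    have : (π * v) ^ 5 / 120 = (π ^ 5 / 120) * v ^ 5 := by ring
    rw [this]
    apply mul_le_mul_of_nonneg_right _ (by positivity)
    norm_num at l5 ⊢
    linarith
  have e7 : (π * v) ^ 7 / 5040 ≤ 0.59927 * v ^ 7 := by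
    have : (π * v) ^ 7 / 5040 = (π ^ 7 / 5040) * v ^ 7 := by ring
    rw [this]
    apply mul_le_mul_of_nonneg_right _ (by positivity)
    norm_num at u7 ⊢
    linarith
  have h3 : 3.14159 * v - 5.16772 * v ^ 3 + 2.55016 * v ^ 5 - 0.59927 * v ^ 7 ≤
      |Real.sin (π * 2.37 * y)| := by linarith
  have h4 : 0 ≤ 2 * (1 - (2 * y - 1)) * (1 + (2 * y - 1) ^ 2) := by
    have : 0 ≤ 1 - (2 * y - 1) := by linarith
    positivity
  have h5 : 2 * (1 - (2 * y - 1)) * (1 + (2 * y - 1) ^ 2) ≤ 1 / y := by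
    rw [le_div_iff₀ hy0]
    have : 2 * (1 - (2 * y - 1)) * (1 + (2 * y - 1) ^ 2) * y = 1 - (2 * y - 1) ^ 4 := by ring
    rw [this]
    have : 0 ≤ (2 * y - 1) ^ 4 := by positivity
    linarith
  calc _ ≤ |Real.sin (π * 2.37 * y)| * (2 * (1 - (2 * y - 1)) * (1 + (2 * y - 1) ^ 2)) :=
        mul_le_mul_of_nonneg_right h3 h4
    _ ≤ |Real.sin (π * 2.37 * y)| * (1 / y) := mul_le_mul_of_nonneg_left h5 (abs_nonneg _)
    _ = _ := by ring

/-- **The gain at `2.37`.** -/
theorem GS_num : 1.37 < GS 4 2.37 := by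
  have hs : Real.sqrt 4 = 2 := by
    rw [show (4 : ℝ) = 2 ^ 2 by norm_num, Real.sqrt_sq (by norm_num)]
  have h0 : (∫ y in (0 : ℝ)..1, |Real.sin (π * 2.37 * y)| / y * (1 - y) ^ (4 : ℝ)) =
      ∫ y in (0 : ℝ)..1, ks 2.37 y * (1 - y) ^ 4 := by
    refine intervalIntegral.integral_congr_ae (Filter.Eventually.of_forall fun y hy => ?_)
    rw [uIoc_of_le (by norm_num)] at hy
    rw [ks_eq (by norm_num) hy.1]
    congr 1
    exact_mod_cast Real.rpow_natCast (1 - y) 4
  have hcont : Continuous fun y : ℝ => ks 2.37 y * (1 - y) ^ 4 :=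
    (ks_cont _).mul (by fun_prop)
  have hi : ∀ a b : ℝ, IntervalIntegrable (fun y : ℝ => ks 2.37 y * (1 - y) ^ 4) volume a b :=
    fun a b => hcont.intervalIntegrable a b
  have h1 : (1.06456 : ℝ) ≤ ∫ y in (0 : ℝ)..(100 / 237), ks 2.37 y * (1 - y) ^ 4 := by
    refine cA_int.trans ?_
    rw [← int_poly]
    refine intervalIntegral.integral_mono_on_of_le_Ioo (by norm_num) ?_ (hi _ _) ?_
    · exact (continuous_finsetSum _ fun i _ =>
        continuous_const.mul (continuous_pow i)).intervalIntegrable _ _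
    · intro y hy
      rw [← cA_eq]
      exact mul_le_mul_of_nonneg_right (arch1 hy.1) (by positivity)
  have h2 : (0.01227 : ℝ) ≤ ∫ y in (100 / 237 : ℝ)..(200 / 237), ks 2.37 y * (1 - y) ^ 4 := by
    refine cB_int.trans ?_
    rw [← int_poly]
    refine intervalIntegral.integral_mono_on (by norm_num) ?_ (hi _ _) ?_
    · exact (continuous_finsetSum _ fun i _ =>
        continuous_const.mul (continuous_pow i)).intervalIntegrable _ _
    · intro y hy
      rw [← cB_eq]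
      exact mul_le_mul_of_nonneg_right (arch2 hy.1 (by linarith [hy.2])) (by positivity)
  have h3 : (0 : ℝ) ≤ ∫ y in (200 / 237 : ℝ)..1, ks 2.37 y * (1 - y) ^ 4 := by
    apply intervalIntegral.integral_nonneg (by norm_num)
    intro y _
    exact mul_nonneg (ks_nonneg (by norm_num) y) (by positivity)
  have h4 : (∫ y in (0 : ℝ)..1, ks 2.37 y * (1 - y) ^ 4) =
      (∫ y in (0 : ℝ)..(100 / 237), ks 2.37 y * (1 - y) ^ 4) +
      (∫ y in (100 / 237 : ℝ)..(200 / 237), ks 2.37 y * (1 - y) ^ 4) +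
      ∫ y in (200 / 237 : ℝ)..1, ks 2.37 y * (1 - y) ^ 4 := by
    rw [intervalIntegral.integral_add_adjacent_intervals (hi _ _) (hi _ _),
      intervalIntegral.integral_add_adjacent_intervals (hi _ _) (hi _ _)]
  unfold GS
  rw [h0, hs, div_mul_eq_mul_div, lt_div_iff₀ Real.pi_pos]
  have hu := Real.pi_lt_d6
  norm_num at h1 h2 hu ⊢
  linarith

end Pool.Agent.MP_67227b_nt.Lg
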