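import Pool.Agent.MP_67227b_nt.Al.AlDefs

set_option autoImplicit false

open Filter Topology Set MeasureTheory Complex
open scoped Real ArithmeticFunction ContDiff

namespace Pool.Agent.MP_67227b_nt.Lg

open Pool.Agent.MP_67227b_nt Pool.Agent.MP_67227b_nt.Al

/-- The trapezoid. -/
noncomputable def tz (σ κ x : ℝ) : ℝ := max 0 (min 1 (min ((x - σ) / σ) ((κ - σ - x) / σ)))

/-- A continuous version of the sign. -/
noncomputable def sz (σ s : ℝ) : ℝ :=
  max 0 (min 1 ((s - σ) / σ)) - max 0 (min 1 ((-s - σ) / σ))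

/-- The profile. -/
noncomputable def Hz (sg u κ q σ x : ℝ) : ℝ :=
  sg * ((1 - σ) * Real.sqrt q) * (tz σ κ x * sz σ (Real.sin (π * u * x)))

lemma tz_nonneg (σ κ x : ℝ) : 0 ≤ tz σ κ x := le_max_left _ _

lemma tz_le_one (σ κ x : ℝ) : tz σ κ x ≤ 1 := max_le (by norm_num) (min_le_left _ _)

lemma tz_supp {σ κ x : ℝ} (hσ : 0 < σ) (h : tz σ κ x ≠ 0) : σ < x ∧ x < κ - σ := by
  have h1 : 0 < tz σ κ x := lt_of_le_of_ne (tz_nonneg _ _ _) (Ne.symm h)
  have h2 : 0 < min 1 (min ((x - σ) / σ) ((κ - σ - x) / σ)) := by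
    by_contra h3
    push Not at h3
    exact h (max_eq_left h3)
  have h3 := lt_min_iff.1 (lt_min_iff.1 h2).2
  have h4 := (div_pos_iff_of_pos_right hσ).1 h3.1
  have h5 := (div_pos_iff_of_pos_right hσ).1 h3.2
  exact ⟨by linarith, by linarith⟩

lemma tz_one {σ κ x : ℝ} (hσ : 0 < σ) (h1 : 2 * σ ≤ x) (h2 : x ≤ κ - 2 * σ) : tz σ κ x = 1 := by
  have h3 : 1 ≤ (x - σ) / σ := by rw [le_div_iff₀ hσ]; linarith
  have h4 : 1 ≤ (κ - σ - x) / σ := by rw [le_div_iff₀ hσ]; linarith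
  unfold tz
  rw [min_eq_left (le_min h3 h4)]
  norm_num

lemma sz_of_pos {σ s : ℝ} (hσ : 0 < σ) (hs : 0 ≤ s) : sz σ s = max 0 (min 1 ((s - σ) / σ)) := by
  unfold sz
  have h1 : (-s - σ) / σ ≤ 0 := div_nonpos_of_nonpos_of_nonneg (by linarith) hσ.le
  rw [max_eq_left (a := (0 : ℝ)) (b := min 1 ((-s - σ) / σ)) ((min_le_right _ _).trans h1)]
  ring

lemma sz_neg (σ s : ℝ) : sz σ (-s) = -sz σ s := by
  unfold sz
  rw [neg_neg]
  ring

lemma abs_sz_le (σ s : ℝ) : |sz σ s| ≤ 1 := by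
  unfold sz
  have h1 : (0 : ℝ) ≤ max 0 (min 1 ((s - σ) / σ)) := le_max_left _ _
  have h2 : max 0 (min 1 ((s - σ) / σ)) ≤ 1 := max_le (by norm_num) (min_le_left _ _)
  have h3 : (0 : ℝ) ≤ max 0 (min 1 ((-s - σ) / σ)) := le_max_left _ _
  have h4 : max 0 (min 1 ((-s - σ) / σ)) ≤ 1 := max_le (by norm_num) (min_le_left _ _)
  rw [abs_le]
  constructor <;> linarith

lemma sz_pos_case {σ s : ℝ} (hσ : 0 < σ) (hs : 0 ≤ s) (h : sz σ s ≠ 0) : σ < s ∧ 0 < sz σ s := by
  rw [sz_of_pos hσ hs] at h ⊢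
  have h1 : 0 < max 0 (min 1 ((s - σ) / σ)) := lt_of_le_of_ne (le_max_left _ _) (Ne.symm h)
  have h2 : 0 < min 1 ((s - σ) / σ) := by
    by_contra h3
    push Not at h3
    exact h (max_eq_left h3)
  have h4 := (div_pos_iff_of_pos_right hσ).1 (lt_min_iff.1 h2).2
  exact ⟨by linarith, h1⟩

lemma sz_case {σ s : ℝ} (hσ : 0 < σ) (h : sz σ s ≠ 0) : σ < |s| ∧ 0 < sz σ s * s := by
  rcases le_total 0 s with hs | hs
  · obtain ⟨h1, h2⟩ := sz_pos_case hσ hs h
    rw [abs_of_nonneg hs]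
    exact ⟨h1, mul_pos h2 (hσ.trans h1)⟩
  · have h' : sz σ (-s) ≠ 0 := by rw [sz_neg]; exact neg_ne_zero.mpr h
    obtain ⟨h1, h2⟩ := sz_pos_case hσ (by linarith) h'
    rw [abs_of_nonpos hs]
    refine ⟨h1, ?_⟩
    have h3 := mul_pos h2 (hσ.trans h1)
    rw [sz_neg] at h3
    nlinarith

lemma abs_sz_one {σ s : ℝ} (hσ : 0 < σ) (h : 2 * σ ≤ |s|) : |sz σ s| = 1 := by
  have key : ∀ s : ℝ, 0 ≤ s → 2 * σ ≤ s → |sz σ s| = 1 := by
    intro s h0 h1
    rw [sz_of_pos hσ h0]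
    have h3 : 1 ≤ (s - σ) / σ := by rw [le_div_iff₀ hσ]; linarith
    rw [min_eq_left h3]
    norm_num
  rcases le_total 0 s with hs | hs
  · rw [abs_of_nonneg hs] at h
    exact key s hs h
  · rw [abs_of_nonpos hs] at h
    rw [← abs_neg, ← sz_neg]
    exact key _ (by linarith) h

lemma abs_sin_div_le {u t : ℝ} (hu : 0 < u) (ht : 0 < t) :
    |Real.sin (π * u * t)| / t ≤ π * u := by
  rw [div_le_iff₀ ht]
  calc |Real.sin (π * u * t)| ≤ |π * u * t| := Real.abs_sin_le_abs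
    _ = π * u * t := abs_of_pos (by positivity)

/-- **The sharp profile for constant weights.** -/
theorem sharp_profile {sg u κ q g : ℝ} (hsg : sg = 1 ∨ sg = -1) (hu : 0 < u) (hκ : 0 < κ)
    (hq : 0 < q)
    (hg : π * g < ∫ t in (0 : ℝ)..κ,
      2 * Real.sqrt q * |Real.sin (π * u * t)| / t * ((κ - t) / κ) ^ q) :
    ∃ (δ q₁ q₂ : ℝ) (H : ℝ → ℝ), 0 < δ ∧ 0 ≤ q₁ ∧ q₁ < q₂ ∧ Prof sg u κ δ H ∧
      (∀ x, |H x| ≤ Real.sqrt q₁) ∧
      π * g < ∫ t in (0 : ℝ)..κ, 2 * |H t * Real.sin (π * u * t)| / t * ((κ - t) / κ) ^ q₂ := by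
  have hpi := Real.pi_pos
  have hsq : 0 < Real.sqrt q := Real.sqrt_pos.2 hq
  have hsg2 : sg * sg = 1 := by rcases hsg with h | h <;> rw [h] <;> norm_num
  have hsga : |sg| = 1 := by rcases hsg with h | h <;> rw [h] <;> norm_num
  -- the limit
  have hlim : Tendsto (fun σ : ℝ => ∫ t in (0 : ℝ)..κ,
      2 * |Hz sg u κ q σ t * Real.sin (π * u * t)| / t * ((κ - t) / κ) ^ q) (𝓝[>] 0)
      (𝓝 (∫ t in (0 : ℝ)..κ,
        2 * Real.sqrt q * |Real.sin (π * u * t)| / t * ((κ - t) / κ) ^ q)) := by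
    have hev : ∀ᶠ σ : ℝ in 𝓝[>] (0 : ℝ), 0 < σ ∧ σ < 1 := by
      filter_upwards [self_mem_nhdsWithin,
        (eventually_lt_nhds (zero_lt_one (α := ℝ))).filter_mono nhdsWithin_le_nhds] with σ h1 h2
      exact ⟨h1, h2⟩
    apply intervalIntegral.tendsto_integral_filter_of_dominated_convergence
      (fun _ => 2 * Real.sqrt q * (π * u))
    · filter_upwards [hev] with σ hσ
      apply Measurable.aestronglyMeasurable
      have h1 : Measurable (fun t : ℝ => Hz sg u κ q σ t) := by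
        unfold Hz tz sz
        fun_prop
      have h2 : Measurable (fun t : ℝ => ((κ - t) / κ) ^ q) :=
        (by fun_prop : Measurable (fun t : ℝ => (κ - t) / κ)).pow_const q
      have h3 : Measurable (fun t : ℝ => Real.sin (π * u * t)) := by fun_prop
      exact (((h1.mul h3).abs.const_mul 2).div measurable_id).mul h2
    · filter_upwards [hev] with σ hσ
      refine Filter.Eventually.of_forall fun t ht => ?_
      rw [uIoc_of_le hκ.le] at ht
      have ht0 : 0 < t := ht.1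
      have h1 : |Hz sg u κ q σ t| ≤ Real.sqrt q := by
        unfold Hz
        rw [abs_mul, abs_mul, abs_mul, abs_mul, hsga, one_mul, abs_of_pos hsq,
          abs_of_nonneg (tz_nonneg σ κ t), abs_of_nonneg (by linarith [hσ.2] : 0 ≤ 1 - σ)]
        have h2 := abs_sz_le σ (Real.sin (π * u * t))
        have h3 := tz_le_one σ κ t
        have h4 := tz_nonneg σ κ t
        have h5 : tz σ κ t * |sz σ (Real.sin (π * u * t))| ≤ 1 :=
          mul_le_one₀ h3 (abs_nonneg _) h2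
        have h6 : (1 - σ) * Real.sqrt q ≤ Real.sqrt q := by nlinarith [hσ.1]
        calc (1 - σ) * Real.sqrt q * (tz σ κ t * |sz σ (Real.sin (π * u * t))|)
            ≤ Real.sqrt q * 1 := mul_le_mul h6 h5 (by positivity) hsq.le
          _ = _ := mul_one _
      have hz : 0 ≤ (κ - t) / κ := div_nonneg (by linarith [ht.2]) hκ.le
      have hz1 : (κ - t) / κ ≤ 1 := by rw [div_le_one hκ]; linarith
      have h2 : ((κ - t) / κ) ^ q ≤ 1 := Real.rpow_le_one hz hz1 hq.le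
      have h2' : 0 ≤ ((κ - t) / κ) ^ q := Real.rpow_nonneg hz q
      have h3 := abs_sin_div_le hu ht0
      rw [Real.norm_eq_abs, abs_mul, abs_of_nonneg h2', abs_div, abs_mul, abs_abs, abs_two,
        abs_of_pos ht0, abs_mul]
      calc 2 * (|Hz sg u κ q σ t| * |Real.sin (π * u * t)|) / t * ((κ - t) / κ) ^ q
          = 2 * |Hz sg u κ q σ t| * (|Real.sin (π * u * t)| / t) * ((κ - t) / κ) ^ q := by ring
        _ ≤ 2 * Real.sqrt q * (π * u) * 1 := by gcongr
        _ = _ := mul_one _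
    · exact intervalIntegrable_const
    · refine Filter.Eventually.of_forall fun t ht => ?_
      rw [uIoc_of_le hκ.le] at ht
      have ht0 : 0 < t := ht.1
      by_cases hs : Real.sin (π * u * t) = 0
      · simp only [hs, mul_zero, abs_zero, zero_div, zero_mul]
        exact tendsto_const_nhds
      by_cases htκ : t = κ
      · have hz : ((κ - t) / κ) ^ q = 0 := by
          rw [htκ, sub_self, zero_div, Real.zero_rpow hq.ne']
        simp only [hz, mul_zero]
        exact tendsto_const_nhds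
      have htκ' : t < κ := lt_of_le_of_ne ht.2 htκ
      have hs0 : 0 < |Real.sin (π * u * t)| := abs_pos.mpr hs
      have hev2 : ∀ᶠ σ : ℝ in 𝓝[>] (0 : ℝ), 0 < σ ∧ σ < 1 ∧ σ < t / 2 ∧ σ < (κ - t) / 2 ∧
          σ < |Real.sin (π * u * t)| / 2 := by
        have e1 : ∀ x : ℝ, 0 < x → ∀ᶠ σ : ℝ in 𝓝[>] (0 : ℝ), σ < x := fun x hx =>
          (eventually_lt_nhds hx).filter_mono nhdsWithin_le_nhds
        filter_upwards [self_mem_nhdsWithin, e1 1 one_pos, e1 (t / 2) (by positivity),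
          e1 ((κ - t) / 2) (by linarith), e1 (|Real.sin (π * u * t)| / 2) (by positivity)]
          with σ h1 h2 h3 h4 h5
        exact ⟨h1, h2, h3, h4, h5⟩
      have heq : ∀ᶠ σ : ℝ in 𝓝[>] (0 : ℝ),
          2 * ((1 - σ) * Real.sqrt q) * |Real.sin (π * u * t)| / t * ((κ - t) / κ) ^ q =
          2 * |Hz sg u κ q σ t * Real.sin (π * u * t)| / t * ((κ - t) / κ) ^ q := by
        filter_upwards [hev2] with σ hσ
        obtain ⟨h1, h2, h3, h4, h5⟩ := hσ
        unfold Hz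
        rw [tz_one h1 (by linarith) (by linarith), one_mul, abs_mul, abs_mul, abs_mul, hsga,
          one_mul, abs_sz_one h1 (by linarith), mul_one,
          abs_of_nonneg (mul_nonneg (by linarith) hsq.le : 0 ≤ (1 - σ) * Real.sqrt q)]
        ring
      refine Tendsto.congr' heq ?_
      have hc : ContinuousAt (fun σ : ℝ =>
          2 * ((1 - σ) * Real.sqrt q) * |Real.sin (π * u * t)| / t * ((κ - t) / κ) ^ q) 0 := by
        fun_prop
      have h6 := hc.tendsto.mono_left (nhdsWithin_le_nhds (s := Ioi (0 : ℝ)))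
      simpa using h6
  have hev3 := (hlim.eventually (lt_mem_nhds hg)).and
    ((eventually_lt_nhds (by norm_num : (0 : ℝ) < 1 / 2)).filter_mono
      (nhdsWithin_le_nhds (s := Ioi (0 : ℝ))))
  obtain ⟨σ, ⟨hσ1, hσ2⟩, hσ0⟩ := (hev3.and self_mem_nhdsWithin).exists
  have hσ : 0 < σ := hσ0
  have hA : Real.sqrt ((1 - σ) ^ 2 * q) = (1 - σ) * Real.sqrt q := by
    rw [Real.sqrt_mul (by positivity), Real.sqrt_sq (by linarith)]
  have hA0 : 0 < (1 - σ) * Real.sqrt q := mul_pos (by linarith) hsq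
  refine ⟨σ, (1 - σ) ^ 2 * q, q, Hz sg u κ q σ, hσ, by positivity, ?_, ⟨?_, ?_, ?_⟩, ?_, hσ1⟩
  · have : (1 - σ) ^ 2 < 1 := by nlinarith
    nlinarith
  · unfold Hz tz sz
    fun_prop
  · intro x hx
    have hx' : tz σ κ x ≠ 0 := by
      intro h0
      apply hx
      unfold Hz
      rw [h0]
      ring
    have h1 := tz_supp hσ hx'
    exact ⟨h1.1.le, by linarith [h1.2]⟩
  · intro x hx
    have hx' : tz σ κ x ≠ 0 := by
      intro h0
      apply hx
      unfold Hz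
      rw [h0]
      ring
    have hs' : sz σ (Real.sin (π * u * x)) ≠ 0 := by
      intro h0
      apply hx
      unfold Hz
      rw [h0]
      ring
    obtain ⟨h1, h2⟩ := sz_case hσ hs'
    refine ⟨h1.le, ?_⟩
    have h3 : 0 < tz σ κ x := lt_of_le_of_ne (tz_nonneg _ _ _) (Ne.symm hx')
    have h4 : sg * Hz sg u κ q σ x * Real.sin (π * u * x) =
        (sg * sg) * (((1 - σ) * Real.sqrt q) * tz σ κ x *
          (sz σ (Real.sin (π * u * x)) * Real.sin (π * u * x))) := by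
      unfold Hz; ring
    rw [h4, hsg2, one_mul]
    positivity
  · intro x
    rw [hA]
    unfold Hz
    rw [abs_mul, abs_mul sg, hsga, one_mul, abs_of_pos hA0, abs_mul (tz σ κ x),
      abs_of_nonneg (tz_nonneg σ κ x)]
    have h2 := abs_sz_le σ (Real.sin (π * u * x))
    have h5 : tz σ κ x * |sz σ (Real.sin (π * u * x))| ≤ 1 :=
      mul_le_one₀ (tz_le_one σ κ x) (abs_nonneg _) h2
    nlinarith [hA0]

end Pool.Agent.MP_67227b_nt.Lg
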