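import Pool.Agent.MP_67227b_nt.Al.AlGain
import Pool.Agent.MP_67227b_nt.Al.AlLBa
import Pool.Agent.MP_67227b_nt.Lg.LgProf
import Pool.Agent.MP_67227b_nt.Lg.LgNum

set_option autoImplicit false

open Filter Topology Set MeasureTheory Complex
open scoped Real ArithmeticFunction ContDiff

namespace Pool.Agent.MP_67227b_nt.Lg

open Pool.Agent.MP_67227b_nt Pool.Agent.MP_67227b_nt.Al

lemma GS_bound {s q y B : ℝ} (hq : 0 < q) (hB : |s| ≤ B) (hy : y ∈ Ioc (0 : ℝ) 1) :
    ‖|Real.sin (π * s * y)| / y * (1 - y) ^ q‖ ≤ π * B := by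
  have hp := Real.pi_pos
  have h1 : |Real.sin (π * s * y)| / y ≤ π * B := by
    rw [div_le_iff₀ hy.1]
    calc |Real.sin (π * s * y)| ≤ |π * s * y| := Real.abs_sin_le_abs
      _ = π * |s| * y := by rw [abs_mul, abs_mul, abs_of_pos hp, abs_of_pos hy.1]
      _ ≤ π * B * y := by
          have := hy.1
          gcongr
  have h2 : 0 ≤ |Real.sin (π * s * y)| / y := div_nonneg (abs_nonneg _) hy.1.le
  have h3 : 0 ≤ (1 - y) ^ q := Real.rpow_nonneg (by linarith [hy.2]) _
  have h4 : (1 - y) ^ q ≤ 1 := Real.rpow_le_one (by linarith [hy.2]) (by linarith [hy.1]) hq.le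
  rw [Real.norm_eq_abs, abs_of_nonneg (mul_nonneg h2 h3)]
  calc _ ≤ π * B * 1 := mul_le_mul h1 h4 h3 (h2.trans h1)
    _ = π * B := mul_one _

lemma GS_meas (s q : ℝ) : Measurable fun y : ℝ => |Real.sin (π * s * y)| / y * (1 - y) ^ q := by
  have h2 : Measurable (fun t : ℝ => (1 - t) ^ q) :=
    (by fun_prop : Measurable (fun t : ℝ => 1 - t)).pow_const q
  have h3 : Measurable (fun t : ℝ => Real.sin (π * s * t)) := by fun_prop
  exact (h3.abs.div measurable_id).mul h2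

lemma GS_int {s q : ℝ} (hq : 0 < q) {a b : ℝ} (ha : 0 ≤ a) (hb : b ≤ 1) (hab : a ≤ b) :
    IntervalIntegrable (fun y : ℝ => |Real.sin (π * s * y)| / y * (1 - y) ^ q) volume a b := by
  rw [intervalIntegrable_iff_integrableOn_Ioc_of_le hab]
  refine Measure.integrableOn_of_bounded (M := π * |s|) ?_ (GS_meas s q).aestronglyMeasurable ?_
  · rw [Real.volume_Ioc]; exact ENNReal.ofReal_ne_top
  · rw [ae_restrict_iff' measurableSet_Ioc]
    exact Eventually.of_forall fun y hy => GS_bound hq le_rfl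
      ⟨lt_of_le_of_lt ha hy.1, hy.2.trans hb⟩

theorem GS_cont {q : ℝ} (hq : 0 < q) (s : ℝ) : ContinuousAt (GS q) s := by
  unfold GS
  refine continuousAt_const.mul ?_
  refine intervalIntegral.continuousAt_of_dominated_interval
    (bound := fun _ => π * (|s| + 1)) ?_ ?_ intervalIntegrable_const ?_
  · exact Eventually.of_forall fun x => (GS_meas x q).aestronglyMeasurable
  · have : ∀ᶠ x in 𝓝 s, |x| < |s| + 1 :=
      (continuous_abs.continuousAt (x := s)).eventually (gt_mem_nhds (by linarith))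
    filter_upwards [this] with x hx
    refine Eventually.of_forall fun y hy => ?_
    rw [uIoc_of_le (by norm_num)] at hy
    exact GS_bound hq hx.le hy
  · refine Eventually.of_forall fun y _ => ?_
    fun_prop

theorem GS_pos {q s : ℝ} (hq : 0 < q) (hs : 0 < s) : 0 < GS q s := by
  have hp := Real.pi_pos
  unfold GS
  have hc : 0 < 2 * Real.sqrt q / π := by
    have := Real.sqrt_pos.2 hq
    positivity
  refine mul_pos hc ?_
  set r : ℝ := min 1 (1 / s) with hr
  have hr0 : 0 < r := lt_min one_pos (by positivity)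
  have hr1 : r ≤ 1 := min_le_left _ _
  have hr2 : r ≤ 1 / s := min_le_right _ _
  rw [← intervalIntegral.integral_add_adjacent_intervals (GS_int hq le_rfl hr1 hr0.le)
    (GS_int hq hr0.le le_rfl hr1)]
  refine add_pos_of_pos_of_nonneg ?_ ?_
  · refine intervalIntegral.intervalIntegral_pos_of_pos_on (GS_int hq le_rfl hr1 hr0.le) ?_ hr0
    intro y hy
    have h1 : 0 < Real.sin (π * s * y) := by
      apply Real.sin_pos_of_pos_of_lt_pi
      · have := hy.1; positivity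
      · have h2 : s * y < 1 := by
          have := lt_of_lt_of_le hy.2 hr2
          rw [lt_div_iff₀ hs] at this
          linarith
        nlinarith
    have h2 : 0 < (1 - y) ^ q := Real.rpow_pos_of_pos (by linarith [hy.2]) _
    have := hy.1
    have := abs_pos.2 h1.ne'
    positivity
  · apply intervalIntegral.integral_nonneg hr1
    intro y hy
    have h1 : 0 < y := lt_of_lt_of_le hr0 hy.1
    have h2 : 0 ≤ (1 - y) ^ q := Real.rpow_nonneg (by linarith [hy.2]) _
    positivity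

/-- The substitution `t = κ y`. -/
theorem GS_subst {q u κ : ℝ} (hκ : 0 < κ) : π * GS q (u * κ) =
    ∫ t in (0 : ℝ)..κ, 2 * Real.sqrt q * |Real.sin (π * u * t)| / t * ((κ - t) / κ) ^ q := by
  have hp := Real.pi_pos
  have h1 := intervalIntegral.integral_comp_mul_left (a := 0) (b := 1)
    (fun t : ℝ => 2 * Real.sqrt q * |Real.sin (π * u * t)| / t * ((κ - t) / κ) ^ q) hκ.ne'
  rw [mul_zero, mul_one, smul_eq_mul] at h1
  have h2 : (∫ t in (0 : ℝ)..κ, 2 * Real.sqrt q * |Real.sin (π * u * t)| / t *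
      ((κ - t) / κ) ^ q) = κ * ∫ x in (0 : ℝ)..1,
        2 * Real.sqrt q * |Real.sin (π * u * (κ * x))| / (κ * x) * ((κ - κ * x) / κ) ^ q := by
    rw [h1]
    field_simp
  rw [h2]
  unfold GS
  rw [← intervalIntegral.integral_const_mul, ← intervalIntegral.integral_const_mul,
    ← intervalIntegral.integral_const_mul]
  refine intervalIntegral.integral_congr_ae (Eventually.of_forall fun y hy => ?_)
  rw [uIoc_of_le (by norm_num)] at hy
  have hy0 : y ≠ 0 := hy.1.ne'
  have e1 : (κ - κ * y) / κ = 1 - y := by field_simp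
  have e2 : π * (u * κ) * y = π * u * (κ * y) := by ring
  rw [e1, e2]
  field_simp

/-- **The sharp gain of constant weights.** -/
theorem gain_sharp {sg u θ₀ q g : ℝ} (hsg : sg = 1 ∨ sg = -1) (hu : 0 < u) (hθ₀ : 0 < θ₀)
    (hθ₀1 : θ₀ ≤ 1) (hq : 0 < q) (hg : g < GS q (u * θ₀)) :
    ∃ κ : ℝ, 0 < κ ∧ κ < θ₀ ∧ Gain sg u κ g := by
  have hp := Real.pi_pos
  have hs : 0 < u * θ₀ := mul_pos hu hθ₀
  have hgm : max g 0 < GS q (u * θ₀) := max_lt hg (GS_pos hq hs)
  have hc : ContinuousAt (fun κ : ℝ => GS q (u * κ)) θ₀ :=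
    ContinuousAt.comp (f := fun κ : ℝ => u * κ) (g := GS q) (GS_cont hq _) (by fun_prop)
  have h1 : ∀ᶠ κ in 𝓝[<] θ₀, max g 0 < GS q (u * κ) :=
    (hc.eventually (lt_mem_nhds hgm)).filter_mono nhdsWithin_le_nhds
  have h2 : ∀ᶠ κ in 𝓝[<] θ₀, 0 < κ := (lt_mem_nhds hθ₀).filter_mono nhdsWithin_le_nhds
  have h3 : ∀ᶠ κ in 𝓝[<] θ₀, κ ∈ Iio θ₀ := self_mem_nhdsWithin
  obtain ⟨κ, ⟨hκg, hκ⟩, hκθ⟩ := ((h1.and h2).and h3).exists
  have hκθ' : κ < θ₀ := hκθ
  have hgq : π * max g 0 < ∫ t in (0 : ℝ)..κ,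
      2 * Real.sqrt q * |Real.sin (π * u * t)| / t * ((κ - t) / κ) ^ q := by
    rw [← GS_subst hκ]
    exact mul_lt_mul_of_pos_left hκg hp
  obtain ⟨δ, q₁, q₂, H, hδ, hq₁, hq₁₂, hP, hHb, hI⟩ := sharp_profile hsg hu hκ hq hgq
  have hq₂ : 0 ≤ q₂ := by linarith
  have hg1 : π * g ≤ π * max g 0 := mul_le_mul_of_nonneg_left (le_max_left _ _) hp.le
  have hg0 : 0 ≤ π * max g 0 := mul_nonneg hp.le (le_max_right _ _)
  refine ⟨κ, hκ, hκθ', main_ineq hsg hu hκ (by linarith) hδ hP (Φ := fun t => ((κ - t) / κ) ^ q₂)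
    ?_ ?_ (LB_bounded hκ hδ hq₁ hq₁₂ hHb hP.supp) (lt_of_le_of_lt hg1 hI)
    (lt_of_le_of_lt hg0 hI)⟩
  · refine ContinuousOn.rpow_const (by fun_prop) fun x _ => Or.inr hq₂
  · intro t ht
    have h1 : 0 ≤ (κ - t) / κ := div_nonneg (by linarith [ht.2]) hκ.le
    have h2 : (κ - t) / κ ≤ 1 := by
      rw [div_le_one hκ]
      linarith [ht.1]
    exact ⟨Real.rpow_nonneg h1 _, Real.rpow_le_one h1 h2 hq₂⟩

end Pool.Agent.MP_67227b_nt.Lg
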