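import Pool.Agent.MP_67227b_nt.Al.AlFinal
import Pool.Agent.MP_67227b_nt.Lg.LgGain
import Pool.Agent.MP_67227b_nt.Lg.LgCount

set_option autoImplicit false

open Filter Topology Set MeasureTheory Complex
open scoped Real ArithmeticFunction ContDiff

namespace Pool.Agent.MP_67227b_nt.Lg

open Pool.Agent.Lib.ZetaCount_helper33 Pool.Agent.MP_67227b_nt Pool.Agent.MP_67227b_nt.Mo
open Pool.Agent.MP_67227b_nt.Sg Pool.Agent.MP_67227b_nt.Pp Pool.Agent.MP_67227b_nt.Al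

/-- `GS q s ≤ s`. -/
theorem GS_le {q s : ℝ} (hq : 0 < q) (hs : 0 ≤ s) : GS q s ≤ s := by
  have hp := Real.pi_pos
  have h1 : (∫ y in (0 : ℝ)..1, |Real.sin (π * s * y)| / y * (1 - y) ^ q) ≤
      ∫ y in (0 : ℝ)..1, π * s * (1 - y) ^ q := by
    have hi : IntervalIntegrable (fun y : ℝ => (1 - y) ^ q) volume 0 1 := by
      apply ContinuousOn.intervalIntegrable
      exact ContinuousOn.rpow_const (by fun_prop) fun x _ => Or.inr hq.le
    refine intervalIntegral.integral_mono_on_of_le_Ioo (by norm_num) (GS_int hq le_rfl le_rfl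
      (by norm_num)) (hi.const_mul _) ?_
    intro y hy
    refine mul_le_mul_of_nonneg_right ?_ (Real.rpow_nonneg (by linarith [hy.2]) _)
    rw [div_le_iff₀ hy.1]
    calc |Real.sin (π * s * y)| ≤ |π * s * y| := Real.abs_sin_le_abs
      _ = π * s * y := abs_of_nonneg (by have := hy.1; positivity)
  have h2 : (∫ y in (0 : ℝ)..1, π * s * (1 - y) ^ q) = π * s / (q + 1) := by
    rw [intervalIntegral.integral_const_mul]
    have h3 := intervalIntegral.integral_comp_sub_left (a := 0) (b := 1) (fun x : ℝ => x ^ q) 1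
    rw [h3, sub_self, sub_zero, integral_rpow (Or.inl (by linarith)), Real.one_rpow,
      Real.zero_rpow (by linarith)]
    ring
  rw [h2] at h1
  unfold GS
  have hsq : 0 ≤ Real.sqrt q := Real.sqrt_nonneg _
  have hq2 : Real.sqrt q ^ 2 = q := Real.sq_sqrt hq.le
  calc 2 * Real.sqrt q / π * _ ≤ 2 * Real.sqrt q / π * (π * s / (q + 1)) :=
        mul_le_mul_of_nonneg_left h1 (by positivity)
    _ = s * (2 * Real.sqrt q / (q + 1)) := by field_simp
    _ ≤ s * 1 := by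
        refine mul_le_mul_of_nonneg_left ?_ hs
        rw [div_le_one (by linarith)]
        nlinarith [sq_nonneg (Real.sqrt q - 1)]
    _ = s := mul_one _

/-- A slightly longer window. -/
theorem exists_longer {m : ℕ} {lam θ q : ℝ} (hq : 0 < q)
    (h : lam - GS q (lam * θ) < m) : ∃ u : ℝ, lam < u ∧ u - GS q (u * θ) < m := by
  have hc : ContinuousAt (fun u : ℝ => u - GS q (u * θ)) lam := by
    refine continuousAt_id.sub ?_
    exact ContinuousAt.comp (f := fun u : ℝ => u * θ) (g := GS q) (GS_cont hq _) (by fun_prop)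
  have h1 : ∀ᶠ u in 𝓝[>] lam, u - GS q (u * θ) < m :=
    (hc.eventually (gt_mem_nhds h)).filter_mono nhdsWithin_le_nhds
  have h2 : ∀ᶠ u in 𝓝[>] lam, u ∈ Ioi lam := self_mem_nhdsWithin
  obtain ⟨u, h3, h4⟩ := (h1.and h2).exists
  exact ⟨u, h4, h3⟩

/-- A slightly shorter window. -/
theorem exists_shorter {m : ℕ} {lam θ q : ℝ} (hlam : 0 < lam) (hq : 0 < q)
    (h : (m : ℝ) < lam + GS q (lam * θ)) : ∃ u : ℝ, 0 < u ∧ u < lam ∧
      (m : ℝ) < u + GS q (u * θ) := by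
  have hc : ContinuousAt (fun u : ℝ => u + GS q (u * θ)) lam := by
    refine continuousAt_id.add ?_
    exact ContinuousAt.comp (f := fun u : ℝ => u * θ) (g := GS q) (GS_cont hq _) (by fun_prop)
  have h1 : ∀ᶠ u in 𝓝[<] lam, (m : ℝ) < u + GS q (u * θ) :=
    (hc.eventually (lt_mem_nhds h)).filter_mono nhdsWithin_le_nhds
  have h2 : ∀ᶠ u in 𝓝[<] lam, u ∈ Iio lam := self_mem_nhdsWithin
  have h3 : ∀ᶠ u in 𝓝[<] lam, 0 < u := (lt_mem_nhds hlam).filter_mono nhdsWithin_le_nhds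
  obtain ⟨u, ⟨h4, h5⟩, h6⟩ := ((h1.and h2).and h3).exists
  exact ⟨u, h6, h5, h4⟩

/-- Short groups of zeros with the sharp gain. -/
theorem pos_prop_sharp (hRH : RiemannHypothesis) {m : ℕ} {lam θ q : ℝ} (hm : 1 ≤ m)
    (hlam : 0 < lam) (hθ0 : 0 < θ) (hθ1 : θ ≤ 1) (hq : 0 < q)
    (h : (m : ℝ) < lam + GS q (lam * θ)) :
    ∃ c : ℝ, 0 < c ∧ ∀ᶠ T : ℝ in atTop, c * (T ^ θ * Real.log T) ≤
      ((windowTuples m T (T ^ θ) lam).ncard : ℝ) := by
  obtain ⟨u, hu, hul, hmu⟩ := exists_shorter hlam hq h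
  obtain ⟨κ, hκ, hκθ, hG⟩ := gain_sharp (sg := -1) (g := -1 * (u - m)) (Or.inr rfl) hu hθ0 hθ1 hq
    (by linarith)
  exact pos_prop_of_gain hRH hm hu hul hθ0 hθ1 hκ hκθ hG

/-- The points and, for the full window, the ordinates followed by few zeros. -/
theorem gaps_of_gain (hRH : RiemannHypothesis) {m : ℕ} {lam u θ κ : ℝ} (hm : 1 ≤ m)
    (hlam : 0 < lam) (hlu : lam < u) (hθ0 : 0 < θ) (hθ1 : θ ≤ 1) (hκ : 0 < κ) (hκθ : κ < θ)
    (hG : Gain 1 u κ (1 * (u - m))) :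
    ∃ c : ℝ, 0 < c ∧ ∀ᶠ T : ℝ in atTop, c * T ^ θ ≤
      volume.real (gapSet m T (T ^ θ) (2 * π * lam / Real.log T)) ∧
      (θ = 1 → c * (T * Real.log T) ≤
        ((gapOrd m T (2 * π * lam / Real.log T)).ncard : ℝ)) := by
  obtain ⟨c, hc, hT⟩ := meas_gap hRH hm hlam hlu hθ0 hθ1 hκ hκθ hG
  by_cases h1 : θ = 1
  · subst h1
    simp only [Real.rpow_one] at hT ⊢
    obtain ⟨c', hc', hT'⟩ := count_gap hRH hc hT
    refine ⟨min c c', lt_min hc hc', ?_⟩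
    filter_upwards [hT, hT', eventually_gt_atTop 1] with T h2 h3 hT1
    have hT0 : 0 < T := by linarith
    have hL : 0 < Real.log T := Real.log_pos hT1
    refine ⟨le_trans ?_ h2, fun _ => le_trans ?_ h3⟩
    · exact mul_le_mul_of_nonneg_right (min_le_left _ _) hT0.le
    · exact mul_le_mul_of_nonneg_right (min_le_right _ _) (by positivity)
  · refine ⟨c, hc, ?_⟩
    filter_upwards [hT] with T h2
    exact ⟨h2, fun h3 => absurd h3 h1⟩

/-- Large gaps with the sharp gain. -/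
theorem gaps_sharp (hRH : RiemannHypothesis) {m : ℕ} {lam θ q : ℝ} (hm : 1 ≤ m)
    (hlam : 0 < lam) (hθ0 : 0 < θ) (hθ1 : θ ≤ 1) (hq : 0 < q)
    (h : lam - GS q (lam * θ) < m) :
    ∃ c : ℝ, 0 < c ∧ ∀ᶠ T : ℝ in atTop, c * T ^ θ ≤
      volume.real (gapSet m T (T ^ θ) (2 * π * lam / Real.log T)) ∧
      (θ = 1 → c * (T * Real.log T) ≤
        ((gapOrd m T (2 * π * lam / Real.log T)).ncard : ℝ)) := by
  obtain ⟨u, hlu, hmu⟩ := exists_longer hq h
  have hu : 0 < u := hlam.trans hlu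
  obtain ⟨κ, hκ, hκθ, hG⟩ := gain_sharp (sg := 1) (g := 1 * (u - m)) (Or.inl rfl) hu hθ0 hθ1 hq
    (by linarith)
  exact gaps_of_gain hRH hm hlam hlu hθ0 hθ1 hκ hκθ hG

/-- Large gaps for large windows. -/
theorem gaps_large (hRH : RiemannHypothesis) {ϑ : ℝ} (hϑ0 : 0 ≤ ϑ) (hϑ : ϑ < Real.sqrt 2) :
    ∃ s₀ : ℝ, 0 < s₀ ∧ ∀ (m : ℕ) (lam θ : ℝ), 1 ≤ m → 0 < θ → θ ≤ 1 → s₀ ≤ lam * θ →
      lam - ϑ * Real.sqrt (lam * θ) < m →
      ∃ c : ℝ, 0 < c ∧ ∀ᶠ T : ℝ in atTop, c * T ^ θ ≤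
        volume.real (gapSet m T (T ^ θ) (2 * π * lam / Real.log T)) ∧
        (θ = 1 → c * (T * Real.log T) ≤
          ((gapOrd m T (2 * π * lam / Real.log T)).ncard : ℝ)) := by
  obtain ⟨s₀, hs₀, hs⟩ := gain_sine hϑ0 hϑ
  refine ⟨s₀, hs₀, fun m lam θ hm hθ0 hθ1 hsl h => ?_⟩
  have hlam : 0 < lam := by
    by_contra hn
    push Not at hn
    nlinarith
  have hc : ContinuousAt (fun u : ℝ => u - ϑ * Real.sqrt (u * θ)) lam := by
    apply Continuous.continuousAt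
    exact continuous_id.sub (continuous_const.mul ((continuous_id.mul continuous_const).sqrt))
  have h1 : ∀ᶠ u in 𝓝[>] lam, u - ϑ * Real.sqrt (u * θ) < m :=
    (hc.eventually (gt_mem_nhds h)).filter_mono nhdsWithin_le_nhds
  have h2 : ∀ᶠ u in 𝓝[>] lam, u ∈ Ioi lam := self_mem_nhdsWithin
  obtain ⟨u, hu1, hu2⟩ := (h1.and h2).exists
  have hlu : lam < u := hu2
  have hu : 0 < u := hlam.trans hlu
  have hsu : s₀ ≤ u * θ := by nlinarith
  obtain ⟨κ, hκ, hκθ, hG⟩ := hs 1 u θ (1 * (u - m)) (Or.inl rfl) hu hθ0 hθ1 hsu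
    (by linarith)
  exact gaps_of_gain hRH hm hlam hlu hθ0 hθ1 hκ hκθ hG

end Pool.Agent.MP_67227b_nt.Lg
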