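import Mathlib

set_option autoImplicit false

/-! # Taylor bounds for the sine on the half line -/

open Set
open scoped Real

namespace Pool.Agent.MP_67227b_nt.Lg

/-- Taylor polynomials of the sine. -/
noncomputable def Sn (n : ℕ) (z : ℝ) : ℝ :=
  ∑ k ∈ Finset.range n, (-1) ^ k * z ^ (2 * k + 1) / ((2 * k + 1).factorial : ℝ)

/-- Taylor polynomials of the cosine. -/
noncomputable def Cn (n : ℕ) (z : ℝ) : ℝ :=
  ∑ k ∈ Finset.range n, (-1) ^ k * z ^ (2 * k) / ((2 * k).factorial : ℝ)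

lemma hasDerivAt_Sn (n : ℕ) (z : ℝ) : HasDerivAt (Sn n) (Cn n z) z := by
  unfold Sn Cn
  apply HasDerivAt.fun_sum
  intro k _
  have h1 := ((hasDerivAt_pow (2 * k + 1) z).const_mul ((-1 : ℝ) ^ k)).div_const
    ((2 * k + 1).factorial : ℝ)
  refine h1.congr_deriv ?_
  rw [Nat.factorial_succ]
  have h2 : ((2 * k).factorial : ℝ) ≠ 0 := by positivity
  push_cast
  field_simp

lemma hasDerivAt_Cn (n : ℕ) (z : ℝ) : HasDerivAt (Cn (n + 1)) (-Sn n z) z := by
  unfold Sn Cn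
  have h0 : (fun z : ℝ => ∑ k ∈ Finset.range (n + 1), (-1) ^ k * z ^ (2 * k) /
      ((2 * k).factorial : ℝ)) = fun z : ℝ => (∑ k ∈ Finset.range n, (-1) ^ (k + 1) *
        z ^ (2 * (k + 1)) / ((2 * (k + 1)).factorial : ℝ)) + 1 := by
    funext z
    rw [Finset.sum_range_succ']
    simp
  rw [h0, ← Finset.sum_neg_distrib]
  apply HasDerivAt.add_const
  apply HasDerivAt.fun_sum
  intro k _
  have h1 := ((hasDerivAt_pow (2 * (k + 1)) z).const_mul ((-1 : ℝ) ^ (k + 1))).div_const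
    ((2 * (k + 1)).factorial : ℝ)
  refine h1.congr_deriv ?_
  have e : 2 * (k + 1) = 2 * k + 1 + 1 := by ring
  rw [e, Nat.factorial_succ]
  have h2 : ((2 * k + 1).factorial : ℝ) ≠ 0 := by positivity
  push_cast
  rw [pow_succ (-1 : ℝ) k]
  field_simp

/-- Alternating bounds. -/
theorem sin_cos_bounds (n : ℕ) :
    (∀ z : ℝ, 0 ≤ z → 0 ≤ (-1) ^ (n + 1) * (Real.cos z - Cn (n + 1) z)) ∧
    (∀ z : ℝ, 0 ≤ z → 0 ≤ (-1) ^ (n + 1) * (Real.sin z - Sn (n + 1) z)) := by
  have mono : ∀ f f' : ℝ → ℝ, (∀ z, HasDerivAt f (f' z) z) → (∀ z, 0 ≤ z → 0 ≤ f' z) →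
      f 0 = 0 → ∀ z, 0 ≤ z → 0 ≤ f z := by
    intro f f' hd hf' h0 z hz
    have hm : MonotoneOn f (Ici 0) := by
      apply monotoneOn_of_deriv_nonneg (convex_Ici 0)
      · exact fun x _ => (hd x).continuousAt.continuousWithinAt
      · exact fun x _ => (hd x).differentiableAt.differentiableWithinAt
      · intro x hx
        rw [interior_Ici] at hx
        rw [(hd x).deriv]
        exact hf' x (le_of_lt hx)
    have := hm (Set.mem_Ici.mpr le_rfl) (Set.mem_Ici.mpr hz) hz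
    rwa [h0] at this
  have hA : ∀ n : ℕ, (∀ z : ℝ, 0 ≤ z → 0 ≤ (-1) ^ (n + 1) * (Real.cos z - Cn (n + 1) z)) →
      ∀ z : ℝ, 0 ≤ z → 0 ≤ (-1) ^ (n + 1) * (Real.sin z - Sn (n + 1) z) := by
    intro n h z hz
    apply mono (fun z => (-1) ^ (n + 1) * (Real.sin z - Sn (n + 1) z))
      (fun z => (-1) ^ (n + 1) * (Real.cos z - Cn (n + 1) z)) ?_ h ?_ z hz
    · intro x
      exact ((Real.hasDerivAt_sin x).sub (hasDerivAt_Sn (n + 1) x)).const_mul _
    · have : Sn (n + 1) 0 = 0 := by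
        unfold Sn
        apply Finset.sum_eq_zero
        intro k _
        simp
      rw [this]
      simp
  induction n with
  | zero =>
    have h0 : ∀ z : ℝ, 0 ≤ z → 0 ≤ (-1) ^ (0 + 1) * (Real.cos z - Cn (0 + 1) z) := by
      intro z _
      have : Cn (0 + 1) z = 1 := by simp [Cn]
      rw [this]
      have := Real.cos_le_one z
      simp
      linarith
    exact ⟨h0, hA 0 h0⟩
  | succ n ih =>
    have h1 : ∀ z : ℝ, 0 ≤ z → 0 ≤ (-1) ^ (n + 1 + 1) * (Real.cos z - Cn (n + 1 + 1) z) := by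
      intro z hz
      apply mono (fun z => (-1) ^ (n + 1 + 1) * (Real.cos z - Cn (n + 1 + 1) z))
        (fun z => (-1) ^ (n + 1) * (Real.sin z - Sn (n + 1) z)) ?_ ih.2 ?_ z hz
      · intro x
        have h1 := ((Real.hasDerivAt_cos x).sub (hasDerivAt_Cn (n + 1) x)).const_mul
          ((-1 : ℝ) ^ (n + 1 + 1))
        refine h1.congr_deriv ?_
        rw [pow_succ (-1 : ℝ) (n + 1)]
        ring
      · have : Cn (n + 1 + 1) 0 = 1 := by
          unfold Cn
          rw [Finset.sum_range_succ']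
          simp
        rw [this]
        simp
    exact ⟨h1, hA (n + 1) h1⟩

/-- The lower bound with six terms. -/
theorem sin_ge_six {z : ℝ} (hz : 0 ≤ z) : z - z ^ 3 / 6 + z ^ 5 / 120 - z ^ 7 / 5040 +
    z ^ 9 / 362880 - z ^ 11 / 39916800 ≤ Real.sin z := by
  have h := (sin_cos_bounds 5).2 z hz
  unfold Sn at h
  simp only [Finset.sum_range_succ, Finset.sum_range_zero] at h
  norm_num [Nat.factorial] at h
  linarith

end Pool.Agent.MP_67227b_nt.Lg
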